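import Pool.Agent.TH289.L.P1
import Pool.Agent.TH304.K289.Base

set_option autoImplicit false
set_option linter.unusedSectionVars false

open Filter Topology Set Metric unitInterval

namespace Pool.Agent.Y330.H

open Pool.Agent.H789R2.AN Pool.Agent.H789R2.GP Pool.Agent.TH289.L
open Pool.Agent.TH304.K289

variable {X : Type*} [MetricSpace X] [CompactSpace X] {g : X ≃ₜ X} {c : ℝ}

/-- unstable paths of level `j` slide along small stable displacements -/
def Sl (g : X ≃ₜ X) (c c₁ : ℝ) : Prop :=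
  ∀ e > 0, ∀ j : ℕ, ∃ η > 0, ∀ (v : C(I, SM g.symm)) (s : X), SR g η (v 0).val s →
    (∀ t, SR g.symm c₁ (g.symm^[j] (v 0).val) (g.symm^[j] (v t).val)) →
    ∃ Γ : C(I, Pr g), (Γ 0).y = s ∧ (∀ t, (Γ t).x = (v t).val) ∧
      (∀ t, SR g e (v t).val (Γ t).y) ∧
      ∀ t, SR g.symm (c / 3) (g.symm^[j] s) (g.symm^[j] (Γ t).y)

theorem Sl.mono {c₁ c₂ : ℝ} (h : Sl g c c₁) (hc : c₂ ≤ c₁) : Sl g c c₂ := by
  intro e he j
  obtain ⟨η, hη, h1⟩ := h e he j
  exact ⟨η, hη, fun v s h2 h3 => h1 v s h2 fun t => (h3 t).mono hc⟩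

theorem exists_sl (hg : LP g c) : ∃ c₁ > 0, Sl g c c₁ := by
  obtain ⟨br, δ, hδ, hbr, hsmall, huniq, hunif⟩ := exists_br hg
  have hc := hg.c_pos
  set c₁ := min (δ / 2) (c / 3) with hc₁
  have hc₁0 : 0 < c₁ := by positivity
  have b1 : c₁ ≤ δ / 2 := min_le_left _ _
  have b3 : c₁ ≤ c / 3 := min_le_right _ _
  refine ⟨c₁, hc₁0, fun e he j => ?_⟩
  obtain ⟨η1, hη1, A1⟩ := qs_SR_of_dist hg e he
  obtain ⟨η2, hη2, A2⟩ := hunif η1 hη1
  set η' := min (c / 3) (min (δ / 4) (η2 / 2)) with hη'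
  have hη'0 : 0 < η' := by positivity
  have k1 : η' ≤ c / 3 := min_le_left _ _
  have k3 : η' ≤ δ / 4 := (min_le_right _ _).trans (min_le_left _ _)
  have k4 : η' ≤ η2 / 2 := (min_le_right _ _).trans (min_le_right _ _)
  have hcm : ∀ x, g.symm (g x) = g (g.symm x) := fun x => by
    rw [g.symm_apply_apply, g.apply_symm_apply]
  obtain ⟨η, hη0, hmap⟩ := uc_map_iter (g := g) (φ := g.symm) hcm j η' hη'0
  refine ⟨η, hη0, fun v s has hau => ?_⟩
  have hq : SR g η' (g.symm^[j] (v 0).val) (g.symm^[j] s) := hmap _ _ has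
  obtain ⟨v', hv'⟩ := path_iter j v
  set s' := g.symm^[j] s with hs'
  have d2 : dist (v' 0).val s' ≤ η' := by rw [hv']; exact hq 0
  have d1 : ∀ t, dist (v' 0).val (v' t).val ≤ c₁ := fun t => by rw [hv', hv']; exact hau t 0
  have d3 : ∀ t, dist (v' t).val s' ≤ c₁ + η' := by
    intro t
    have := dist_triangle_left (v' t).val s' (v' 0).val
    linarith [d1 t]
  obtain ⟨Γ', hx', hy'⟩ := br_strip hg hbr hunif v' s' (fun t => by linarith [d3 t])
  obtain ⟨Γ, hx, hy⟩ := strip_iter j Γ'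
  have z0 : s' = br (v' 0).val s' := huniq _ _ _ (by linarith [d3 0])
    (by rw [hv']; exact hq.mono k1) (fun k => by rw [dist_self]; positivity)
  refine ⟨Γ, ?_, fun t => ?_, fun t => ?_, fun t => ?_⟩
  · rw [hy, hy', ← z0, hs', iterR]
  · rw [hx, hx', hv', iterR]
  · have e1 : (v' t).val = br (v' t).val (v' 0).val := by
      refine huniq _ _ _ (by rw [dist_comm]; linarith [d1 t]) (fun k => by rw [dist_self]; positivity) ?_
      rw [hv', hv']
      exact (hau t).mono b3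
    have e2 : dist (v' t).val (br (v' t).val s') < η1 := by
      have := A2 (v' t).val (v' t).val (v' 0).val s' (by rw [dist_comm]; linarith [d1 t])
        (by linarith [d3 t]) (by rw [dist_self]; exact hη2) (by linarith)
      rwa [← e1] at this
    have e3 : SR g e (v' t).val (br (v' t).val s') :=
      A1 _ _ ((hbr _ _ (by linarith [d3 t])).1.mono (by linarith)) e2
    have e4 := e3.shift j
    rw [hy, hy']
    rw [hv'] at e4 ⊢
    rwa [iterR] at e4
  · have e3 := (hbr (v' t).val s' (by linarith [d3 t])).2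
    rw [hy, hy', iterL]
    exact e3

/-- uniqueness of strips -/
theorem strip_unique (h : LP g c) (Γ Γ' : C(I, Pr g)) (hx : ∀ t, (Γ t).x = (Γ' t).x) {t₀ : I}
    (h0 : (Γ t₀).y = (Γ' t₀).y) : ∀ t, (Γ t).y = (Γ' t).y := by
  have hl : IsLocalHomeomorph (Pr.fst : Pr g → SM g.symm) := fst_isLocalHomeomorph h
  have e := IsSeparatedMap.eq_of_comp_eq (T2Space.isSeparatedMap (Pr.fst : Pr g → SM g.symm))
    hl.isLocallyInjective Γ.continuous Γ'.continuous
    (by funext t; exact SM.ext (hx t)) t₀ (Pr.ext (hx t₀) h0)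
  intro t
  exact congrArg Pr.y (congrFun e t)

/-- the constant strip -/
theorem strip_const (v : C(I, SM g.symm)) : ∃ Γ : C(I, Pr g), (∀ t, (Γ t).x = (v t).val) ∧
    ∀ t, (Γ t).y = (v t).val := by
  have hcont : Continuous fun t : I => (⟨(v t).val, (v t).val, WS.refl _ _⟩ : Pr g) := by
    rw [Pr.continuous_iff]
    refine ⟨v.continuous, v.continuous, fun a ε hε => ⟨0, Eventually.of_forall fun t k _ => ?_⟩⟩
    show dist (g^[k] (v t).val) (g^[k] (v t).val) ≤ ε
    rw [dist_self]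
    exact hε.le
  exact ⟨⟨_, hcont⟩, fun t => rfl, fun t => rfl⟩

/-- the reversed strip -/
theorem strip_swap (Γ : C(I, Pr g)) : ∃ Γ' : C(I, Pr g), (∀ t, (Γ' t).x = (Γ t).y) ∧
    ∀ t, (Γ' t).y = (Γ t).x :=
  ⟨⟨_, (swap_continuous g).comp Γ.continuous⟩, fun _ => rfl, fun _ => rfl⟩

/-- the level of a path -/
theorem path_level (h : LP g c) (v : C(I, SM g)) {η : ℝ} (hη : 0 < η) :
    ∃ j : ℕ, ∀ t, SR g η (g^[j] (v 0).val) (g^[j] (v t).val) := by
  obtain ⟨j, hj⟩ := path_small h v hη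
  exact ⟨j, hj j le_rfl⟩

/-- strips are uniformly contracted -/
theorem strip_con (Γ : C(I, Pr g)) : Con g (fun t => (Γ t).x) (fun t => (Γ t).y) := by
  intro ε hε
  have h1 := ((Pr.continuous_iff Γ).1 Γ.continuous).2.2
  have loc : ∀ t : I, ∃ n : ℕ, ∀ᶠ t' in 𝓝 t, ∀ k ≥ n, dist (g^[k] (Γ t').x) (g^[k] (Γ t').y) ≤ ε :=
    fun t => h1 t ε hε
  choose n hn using loc
  obtain ⟨F, hF⟩ := (isCompact_univ (X := I)).elim_nhds_subcover
    (fun t => {t' : I | ∀ k ≥ n t, dist (g^[k] (Γ t').x) (g^[k] (Γ t').y) ≤ ε})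
    (fun t _ => hn t)
  refine ⟨F.sup n, fun m hm t => ?_⟩
  obtain ⟨t₀, ht₀, ht⟩ := Set.mem_iUnion₂.1 (hF.2 (Set.mem_univ t))
  exact ht m ((Finset.le_sup ht₀).trans hm)

/-- Rectangles. -/
structure Rc (g : X ≃ₜ X) (R : I → I → X) : Prop where
  cont : Continuous fun p : I × I => R p.1 p.2
  cs : Con g (fun p : I × I => R 0 p.2) (fun p => R p.1 p.2)
  cu : Con g.symm (fun p : I × I => R p.1 0) (fun p => R p.1 p.2)

theorem Con.refl' {A : Type*} (g : X ≃ₜ X) (x : A → X) : Con g x x := fun ε hε =>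
  ⟨0, fun n _ i => by rw [dist_self]; exact hε.le⟩

theorem Con.symm' {A : Type*} {x y : A → X} (h : Con g x y) : Con g y x := fun ε hε => by
  obtain ⟨n, hn⟩ := h ε hε
  exact ⟨n, fun m hm i => by rw [dist_comm]; exact hn m hm i⟩

theorem Con.trans' {A : Type*} {x y z : A → X} (h : Con g x y) (h' : Con g y z) : Con g x z :=
  fun ε hε => by
  obtain ⟨n, hn⟩ := h (ε / 2) (half_pos hε)
  obtain ⟨n', hn'⟩ := h' (ε / 2) (half_pos hε)
  refine ⟨max n n', fun m hm i => ?_⟩
  have h1 := hn m ((le_max_left _ _).trans hm) i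
  have h2 := hn' m ((le_max_right _ _).trans hm) i
  have := dist_triangle (g^[m] (x i)) (g^[m] (y i)) (g^[m] (z i))
  linarith

theorem Con.reidx {A B : Type*} {x y : A → X} (h : Con g x y) (φ : B → A) :
    Con g (fun b => x (φ b)) (fun b => y (φ b)) := fun ε hε => by
  obtain ⟨n, hn⟩ := h ε hε
  exact ⟨n, fun m hm i => hn m hm _⟩

theorem Rc.tr {R : I → I → X} (h : Rc g R) : Rc g.symm (fun t s => R s t) where
  cont := h.cont.comp continuous_swap
  cs := Con.reidx h.cu Prod.swap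
  cu := Con.reidx (g := g) h.cs Prod.swap

/-- reparametrization of a rectangle -/
theorem Rc.reparam {R : I → I → X} (h : Rc g R) {a b : I → I} (ha : Continuous a)
    (hb : Continuous b) : Rc g (fun s t => R (a s) (b t)) where
  cont := h.cont.comp ((ha.comp continuous_fst).prodMk (hb.comp continuous_snd))
  cs := by
    have h1 := Con.reidx h.cs (fun p : I × I => (a 0, b p.2))
    have h2 := Con.reidx h.cs (fun p : I × I => (a p.1, b p.2))
    exact Con.trans' (Con.symm' h1) h2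
  cu := by
    have h1 := Con.reidx h.cu (fun p : I × I => (a p.1, b 0))
    have h2 := Con.reidx h.cu (fun p : I × I => (a p.1, b p.2))
    exact Con.trans' (Con.symm' h1) h2

/-- iterates -/
theorem Rc.map {R : I → I → X} (h : Rc g R) : Rc g (fun s t => g (R s t)) where
  cont := g.continuous.comp h.cont
  cs := fun ε hε => by
    obtain ⟨n, hn⟩ := h.cs ε hε
    refine ⟨n, fun m hm i => ?_⟩
    rw [← Function.iterate_succ_apply, ← Function.iterate_succ_apply]
    exact hn (m + 1) (by omega) i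
  cu := fun ε hε => by
    obtain ⟨n, hn⟩ := h.cu ε hε
    refine ⟨n + 1, fun m hm i => ?_⟩
    obtain ⟨m', rfl⟩ : ∃ m', m = m' + 1 := ⟨m - 1, by omega⟩
    rw [Function.iterate_succ_apply, Function.iterate_succ_apply, g.symm_apply_apply,
      g.symm_apply_apply]
    exact hn m' (by omega) i

theorem Rc.map' {R : I → I → X} (h : Rc g R) : Rc g (fun s t => g.symm (R s t)) :=
  (Rc.map (Rc.tr h)).tr

theorem Rc.iter' {R : I → I → X} (h : Rc g R) (j : ℕ) : Rc g (fun s t => g.symm^[j] (R s t)) := by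
  induction j with
  | zero => exact h
  | succ j ih =>
    have := ih.map'
    refine ⟨?_, ?_, ?_⟩
    · simp only [Function.iterate_succ_apply']
      exact this.cont
    · simp only [Function.iterate_succ_apply']
      exact this.cs
    · simp only [Function.iterate_succ_apply']
      exact this.cu

theorem Rc.iter {R : I → I → X} (h : Rc g R) (j : ℕ) : Rc g (fun s t => g^[j] (R s t)) :=
  (Rc.iter' (Rc.tr h) j).tr

/-- the vertical sides are unstable paths -/
theorem Rc.pathU {R : I → I → X} (h : Rc g R) (s : I) :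
    ∃ v : C(I, SM g.symm), ∀ t, (v t).val = R s t := by
  have h1 : Con g.symm (fun _ : I => R s 0) (fun t => R s t) := Con.reidx h.cu (fun t : I => (s, t))
  have hc : Continuous (fun t : I => R s t) := h.cont.comp (by fun_prop : Continuous fun t : I => (s, t))
  refine ⟨⟨fun t => ⟨R s t⟩, ?_⟩, fun t => rfl⟩
  rw [Metric.continuous_iff']
  intro t ε hε
  filter_upwards [h1.cont hc t (half_pos hε)] with r hr
  have h5 : dist (⟨R s r⟩ : SM g.symm) ⟨R s t⟩ ≤ ε / 2 :=
    (SM.dist_le _ _ (half_pos hε).le).2 hr.symm'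
  exact lt_of_le_of_lt h5 (half_lt_self hε)

theorem Rc.pathS {R : I → I → X} (h : Rc g R) (t : I) :
    ∃ v : C(I, SM g), ∀ s, (v s).val = R s t := h.tr.pathU t

/-- strips between two vertical sides -/
theorem Rc.strip {R : I → I → X} (h : Rc g R) (s s' : I) :
    ∃ Γ : C(I, Pr g), (∀ t, (Γ t).x = R s t) ∧ ∀ t, (Γ t).y = R s' t := by
  have h1 : Con g (fun t : I => R s t) (fun t => R s' t) :=
    Con.trans' (Con.symm' (Con.reidx h.cs (fun t : I => (s, t))))
      (Con.reidx h.cs (fun t : I => (s', t)))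
  obtain ⟨v, hv⟩ := h.pathU s
  obtain ⟨v', hv'⟩ := h.pathU s'
  refine ⟨⟨fun t => ⟨R s t, R s' t, h1.toWS t⟩, ?_⟩, fun t => rfl, fun t => rfl⟩
  rw [Pr.continuous_iff]
  refine ⟨?_, ?_, fun t ε hε => ?_⟩
  · exact v.continuous.congr fun t => SM.ext (hv t)
  · exact v'.continuous.congr fun t => SM.ext (hv' t)
  · obtain ⟨n, hn⟩ := h1 ε hε
    exact ⟨n, Eventually.of_forall fun r k hk => hn k hk r⟩

/-- uniqueness of rectangles -/
theorem Rc.unique (hg : LP g c) {R R' : I → I → X} (h : Rc g R) (h' : Rc g R')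
    (h0 : ∀ s, R s 0 = R' s 0) (h1 : ∀ t, R 0 t = R' 0 t) (s t : I) : R s t = R' s t := by
  obtain ⟨Γ, a1, a2⟩ := h.strip 0 s
  obtain ⟨Γ', b1, b2⟩ := h'.strip 0 s
  have := strip_unique hg Γ Γ' (fun t => by rw [a1, b1, h1]) (t₀ := 0) (by rw [a2, b2, h0]) t
  rwa [a2, b2] at this

end Pool.Agent.Y330.H
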