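import Pool.Agent.Y330.H.B1

set_option autoImplicit false
set_option linter.unusedSectionVars false

open Filter Topology Set Metric unitInterval

namespace Pool.Agent.Y330.H

open Pool.Agent.H789R2.AN Pool.Agent.H789R2.GP Pool.Agent.TH289.L
open Pool.Agent.TH304.K289

variable {X : Type*} [MetricSpace X] [CompactSpace X] {g : X ≃ₜ X} {c : ℝ}

theorem cpt {Q : ℕ → I → Prop} (h : ∀ s₀ : I, ∃ n : ℕ, ∀ᶠ s in 𝓝 s₀, ∀ k ≥ n, Q k s) :
    ∃ n, ∀ k ≥ n, ∀ s, Q k s := by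
  choose n hn using h
  obtain ⟨F, hF⟩ := (isCompact_univ (X := I)).elim_nhds_subcover
    (fun s₀ => {s : I | ∀ k ≥ n s₀, Q k s}) (fun t _ => hn t)
  refine ⟨F.sup n, fun m hm t => ?_⟩
  obtain ⟨t₀, ht₀, ht⟩ := Set.mem_iUnion₂.1 (hF.2 (Set.mem_univ t))
  exact ht m ((Finset.le_sup ht₀).trans hm)

/-- families of strips over a stable path are rectangles -/
theorem rc_of_strips (hg : LP g c) {c₁ : ℝ} (hc₁ : 0 < c₁) (hs : Sl g c c₁) (τ : C(I, SM g))
    (v : C(I, SM g.symm)) (h0 : (τ 0).val = (v 0).val)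
    (hF : ∀ s, ∃ Γ : C(I, Pr g), (Γ 0).y = (τ s).val ∧ ∀ t, (Γ t).x = (v t).val) :
    ∃ R : I → I → X, Rc g R ∧ (∀ s, R s 0 = (τ s).val) ∧ ∀ t, R 0 t = (v t).val := by
  choose Γ h1 h2 using hF
  have hc := hg.c_pos
  have loc : ∀ s₀ : I, ∃ j : ℕ, ∀ ε > 0, ∀ᶠ s in 𝓝 s₀,
      (∀ t, SR g ε (Γ s₀ t).y (Γ s t).y) ∧
      ∀ t, SR g.symm (c / 3) (g.symm^[j] (τ s).val) (g.symm^[j] (Γ s t).y) := by
    intro s₀
    let v₂ : C(I, SM g.symm) := ⟨fun t => (Γ s₀ t).snd, (qs_snd_cont g).comp (Γ s₀).continuous⟩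
    obtain ⟨j, hj⟩ := path_level hg.symm v₂ hc₁
    refine ⟨j, fun ε hε => ?_⟩
    obtain ⟨η, hη, hsl⟩ := hs ε hε j
    have h3 : ∀ᶠ s in 𝓝 s₀, dist (τ s) (τ s₀) < η :=
      (Metric.tendsto_nhds.mp (τ.continuous.tendsto s₀)) η hη
    filter_upwards [h3] with s hs3
    have h4 : SR g η (τ s₀).val (τ s).val := by
      rw [dist_comm] at hs3
      exact (SM.dist_le _ _ hη.le).mp hs3.le
    obtain ⟨Γ₂, a1, a2, a3, a4⟩ := hsl v₂ (τ s).val
      (by show SR g η (Γ s₀ 0).y _; rw [h1]; exact h4) hj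
    obtain ⟨Γ', b1, b2⟩ := strip_comp (Γ s₀) Γ₂ (fun t => a2 t)
    have h5 := strip_unique hg (Γ s) Γ' (fun t => by rw [b1, h2, h2]) (t₀ := 0)
      (by rw [h1, b2, a1])
    refine ⟨fun t => ?_, fun t => ?_⟩
    · rw [h5, b2]
      exact a3 t
    · rw [h5, b2]
      exact a4 t
  have hR0 : ∀ t, (Γ 0 t).y = (v t).val := by
    obtain ⟨Γ', b1, b2⟩ := strip_const (g := g) v
    intro t
    rw [strip_unique hg (Γ 0) Γ' (fun t => by rw [b1, h2]) (t₀ := 0) (by rw [h1, b2, h0]), b2]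
  refine ⟨fun s t => (Γ s t).y, ⟨?_, ?_, ?_⟩, h1, hR0⟩
  · rw [Metric.continuous_iff']
    rintro ⟨s₀, t₀⟩ ε hε
    obtain ⟨j, hj⟩ := loc s₀
    have h3 : ∀ᶠ p : I × I in 𝓝 (s₀, t₀), ∀ t, SR g (ε / 3) (Γ s₀ t).y (Γ p.1 t).y :=
      (continuous_fst.tendsto' (s₀, t₀) s₀ rfl).eventually
        ((hj (ε / 3) (by positivity)).mono fun s h => h.1)
    have hcont : Continuous fun t => (Γ s₀ t).y :=
      SM.val_continuous.comp ((qs_snd_cont g).comp (Γ s₀).continuous)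
    have h4 : ∀ᶠ p : I × I in 𝓝 (s₀, t₀), dist (Γ s₀ p.2).y (Γ s₀ t₀).y < ε / 3 :=
      (continuous_snd.tendsto' (s₀, t₀) t₀ rfl).eventually
        ((Metric.continuous_iff'.1 hcont) t₀ (ε / 3) (by positivity))
    filter_upwards [h3, h4] with p hp1 hp2
    have a1 := (hp1 p.2).dist12
    have a3 := dist_triangle_left (Γ p.1 p.2).y (Γ s₀ t₀).y (Γ s₀ p.2).y
    show dist (Γ p.1 p.2).y (Γ s₀ t₀).y < ε
    linarith
  · intro ε hε
    have key : ∃ n, ∀ k ≥ n, ∀ s : I, ∀ t, dist (g^[k] (v t).val) (g^[k] (Γ s t).y) ≤ ε := by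
      apply cpt
      intro s₀
      obtain ⟨j, hj⟩ := loc s₀
      obtain ⟨n, hn⟩ := strip_con (Γ s₀) (ε / 2) (half_pos hε)
      refine ⟨n, ?_⟩
      filter_upwards [hj (ε / 2) (half_pos hε)] with s hs k hk t
      have a1 := hn k hk t
      have a2 := hs.1 t k
      simp only [h2] at a1
      have := dist_triangle (g^[k] (v t).val) (g^[k] (Γ s₀ t).y) (g^[k] (Γ s t).y)
      linarith
    obtain ⟨n, hn⟩ := key
    refine ⟨n, fun k hk p => ?_⟩
    show dist (g^[k] (Γ 0 p.2).y) (g^[k] (Γ p.1 p.2).y) ≤ ε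
    rw [hR0]
    exact hn k hk p.1 p.2
  · intro ε hε
    have key : ∃ n, ∀ k ≥ n, ∀ s : I, ∀ t,
        dist (g.symm^[k] (τ s).val) (g.symm^[k] (Γ s t).y) ≤ ε := by
      apply cpt
      intro s₀
      obtain ⟨j, hj⟩ := loc s₀
      obtain ⟨N, hN⟩ := qs_exists_pow hc hε
      refine ⟨j + N, ?_⟩
      filter_upwards [hj 1 one_pos] with s hs k hk t
      have a1 := hg.cU _ _ ((hs.2 t).mono (by linarith)) (k - j)
      rw [← Function.iterate_add_apply, ← Function.iterate_add_apply,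
        Nat.sub_add_cancel (by omega)] at a1
      exact a1.trans (hN _ (by omega)).le
    obtain ⟨n, hn⟩ := key
    refine ⟨n, fun k hk p => ?_⟩
    show dist (g.symm^[k] (Γ p.1 0).y) (g.symm^[k] (Γ p.1 p.2).y) ≤ ε
    rw [h1]
    exact hn k hk p.1 p.2

/-- gluing of rectangles -/
theorem Rc.glue {R R' : I → I → X} (h : Rc g R) (h' : Rc g R') (hm : ∀ s, R s 1 = R' s 0) :
    ∃ R'' : I → I → X, Rc g R'' ∧ (∀ s, R'' s 0 = R s 0) ∧ ∀ s, R'' s 1 = R' s 1 := by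
  classical
  let a : I → I := fun t => Set.projIcc 0 1 zero_le_one (2 * (t : ℝ))
  let b : I → I := fun t => Set.projIcc 0 1 zero_le_one (2 * (t : ℝ) - 1)
  have ha : Continuous a := continuous_projIcc.comp (by fun_prop)
  have hb : Continuous b := continuous_projIcc.comp (by fun_prop)
  have a0 : a 0 = 0 := by
    simp only [a]
    norm_num
  have b1 : b 1 = 1 := by
    simp only [b]
    norm_num
  refine ⟨fun s t => if (t : ℝ) ≤ 1 / 2 then R s (a t) else R' s (b t), ⟨?_, ?_, ?_⟩, ?_, ?_⟩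
  · apply Continuous.if_le
    · exact h.cont.comp (continuous_fst.prodMk (ha.comp continuous_snd))
    · exact h'.cont.comp (continuous_fst.prodMk (hb.comp continuous_snd))
    · fun_prop
    · fun_prop
    · rintro ⟨s, t⟩ ht
      have e1 : a t = 1 := by
        simp only [a]
        simp only at ht
        rw [ht]
        norm_num
      have e2 : b t = 0 := by
        simp only [b]
        simp only at ht
        rw [ht]
        norm_num
      show R s (a t) = R' s (b t)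
      rw [e1, e2, hm]
  · intro ε hε
    obtain ⟨n, hn⟩ := h.cs ε hε
    obtain ⟨n', hn'⟩ := h'.cs ε hε
    refine ⟨max n n', fun k hk p => ?_⟩
    show dist (g^[k] (if (p.2 : ℝ) ≤ 1 / 2 then R 0 (a p.2) else R' 0 (b p.2)))
      (g^[k] (if (p.2 : ℝ) ≤ 1 / 2 then R p.1 (a p.2) else R' p.1 (b p.2))) ≤ ε
    split_ifs
    · exact hn k ((le_max_left _ _).trans hk) (p.1, a p.2)
    · exact hn' k ((le_max_right _ _).trans hk) (p.1, b p.2)
  · intro ε hε
    obtain ⟨n, hn⟩ := h.cu (ε / 2) (half_pos hε)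
    obtain ⟨n', hn'⟩ := h'.cu (ε / 2) (half_pos hε)
    refine ⟨max n n', fun k hk p => ?_⟩
    have hk1 := (le_max_left _ _).trans hk
    have hk2 := (le_max_right _ _).trans hk
    show dist (g.symm^[k] (if ((0 : I) : ℝ) ≤ 1 / 2 then R p.1 (a 0) else R' p.1 (b 0)))
      (g.symm^[k] (if (p.2 : ℝ) ≤ 1 / 2 then R p.1 (a p.2) else R' p.1 (b p.2))) ≤ ε
    rw [if_pos (by norm_num), a0]
    split_ifs
    · exact (hn k hk1 (p.1, a p.2)).trans (half_le_self hε.le)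
    · have e1 := hn k hk1 (p.1, 1)
      have e2 := hn' k hk2 (p.1, b p.2)
      simp only at e1 e2
      rw [hm] at e1
      have := dist_triangle (g.symm^[k] (R p.1 0)) (g.symm^[k] (R' p.1 0))
        (g.symm^[k] (R' p.1 (b p.2)))
      linarith
  · intro s
    show (if ((0 : I) : ℝ) ≤ 1 / 2 then R s (a 0) else R' s (b 0)) = R s 0
    rw [if_pos (by norm_num), a0]
  · intro s
    show (if ((1 : I) : ℝ) ≤ 1 / 2 then R s (a 1) else R' s (b 1)) = R' s 1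
    rw [if_neg (by norm_num), b1]

/-- chains of small stable steps -/
theorem chain (hg : LP g c) (τ : C(I, SM g)) {η : ℝ} (hη : 0 < η) :
    ∃ C : ℝ, ∀ ρ : I → X, (∀ s s', SR g η (τ s).val (τ s').val → SR g c (ρ s) (ρ s')) →
      ∀ (m : ℕ) (s : I), dist (g^[m] (ρ 0)) (g^[m] (ρ s)) ≤ C * (1 / 2) ^ m := by
  have hu : UniformContinuous τ := CompactSpace.uniformContinuous_of_continuous τ.continuous
  rw [Metric.uniformContinuous_iff] at hu
  obtain ⟨δ, hδ, h1⟩ := hu η hη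
  obtain ⟨N, hN⟩ := exists_nat_gt (1 / δ)
  have hN0 : (0:ℝ) < N := lt_trans (by positivity) hN
  refine ⟨N * c, fun ρ hρ m t => ?_⟩
  set s : ℕ → I := fun i => Set.projIcc 0 1 zero_le_one ((t : ℝ) * (i / N)) with hs
  have h2 := dist_le_range_sum_dist (fun i => g^[m] (ρ (s i))) N
  have e0 : s 0 = 0 := by
    simp [hs]
  have eN : s N = t := by
    simp only [hs]
    rw [div_self hN0.ne', mul_one]
    exact Set.projIcc_val zero_le_one t
  have h3 : ∀ i, dist (g^[m] (ρ (s i))) (g^[m] (ρ (s (i + 1)))) ≤ c * (1 / 2) ^ m := by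
    intro i
    apply hg.cS
    apply hρ
    refine (SM.dist_le _ _ hη.le).mp (h1 ?_).le
    have h4 : dist (s i) (s (i + 1)) ≤ dist ((t : ℝ) * (i / N)) ((t : ℝ) * ((i + 1 : ℕ) / N)) := by
      have := (LipschitzWith.projIcc (zero_le_one (α := ℝ))).dist_le_mul
        ((t : ℝ) * (i / N)) ((t : ℝ) * ((i + 1 : ℕ) / N))
      rw [NNReal.coe_one, one_mul] at this
      exact this
    refine lt_of_le_of_lt h4 ?_
    rw [Real.dist_eq]
    have e : (t : ℝ) * (i / N) - (t : ℝ) * ((i + 1 : ℕ) / N) = - (t * (1 / N)) := by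
      push_cast
      field_simp
      ring
    rw [e, abs_neg, abs_of_nonneg (mul_nonneg t.2.1 (by positivity))]
    have h5 : (t : ℝ) * (1 / N) ≤ 1 * (1 / N) := mul_le_mul_of_nonneg_right t.2.2 (by positivity)
    refine lt_of_le_of_lt h5 ?_
    rw [one_mul, one_div_lt hN0 hδ]
    exact hN
  rw [e0, eN] at h2
  refine h2.trans ((Finset.sum_le_sum fun i _ => h3 i).trans ?_)
  rw [Finset.sum_const, Finset.card_range, nsmul_eq_mul, mul_assoc]

/-- unstable levels -/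
def Lv (g : X ≃ₜ X) (ρ : ℝ) (i : ℕ) (x y : X) : Prop :=
  SR g.symm ρ (g.symm^[i] x) (g.symm^[i] y)

theorem Lv.mono {ρ : ℝ} {i j : ℕ} {x y : X} (h : Lv g ρ i x y) (hij : i ≤ j) : Lv g ρ j x y := by
  intro k
  have := h (k + (j - i))
  rw [← Function.iterate_add_apply, ← Function.iterate_add_apply] at this ⊢
  rwa [show k + (j - i) + i = k + j by omega] at this

theorem Lv.mono' {ρ ρ' : ℝ} {i : ℕ} {x y : X} (h : Lv g ρ i x y) (hρ : ρ ≤ ρ') :
    Lv g ρ' i x y := SR.mono h hρ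

theorem Lv.add_iff {ρ : ℝ} {i j : ℕ} {x y : X} :
    Lv g ρ i (g.symm^[j] x) (g.symm^[j] y) ↔ Lv g ρ (i + j) x y := by
  unfold Lv
  rw [← Function.iterate_add_apply, ← Function.iterate_add_apply]

/-- uniform weak quasisymmetry of the stable holonomies -/
def QH (g : X ≃ₜ X) (ρ : ℝ) (a : ℕ) : Prop :=
  ∀ i : ℕ, ∃ k : ℕ, ∀ R R' : I → I → X, Rc g R → Rc g R' → (∀ s, R s 0 = R' s 0) →
    Lv g ρ 0 (R 0 0) (R 0 1) → ¬ Lv g ρ a (R' 0 0) (R' 0 1) →
    Lv g ρ i (R' 1 0) (R' 1 1) → Lv g ρ k (R 1 0) (R 1 1)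

theorem QH.shift {ρ : ℝ} {a : ℕ} (h : QH g ρ a) (i : ℕ) : ∃ k : ℕ, ∀ (j : ℕ) (R R' : I → I → X),
    Rc g R → Rc g R' → (∀ s, R s 0 = R' s 0) →
    Lv g ρ j (R 0 0) (R 0 1) → ¬ Lv g ρ (a + j) (R' 0 0) (R' 0 1) →
    Lv g ρ (i + j) (R' 1 0) (R' 1 1) → Lv g ρ (k + j) (R 1 0) (R 1 1) := by
  obtain ⟨k, hk⟩ := h i
  refine ⟨k, fun j R R' hR hR' h0 h1 h2 h3 => ?_⟩
  have := hk _ _ (hR.iter' j) (hR'.iter' j) (fun s => by rw [h0])
    (by rw [Lv.add_iff, zero_add]; exact h1) (by rw [Lv.add_iff]; exact h2)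
    (by rw [Lv.add_iff]; exact h3)
  rwa [Lv.add_iff] at this

/-- injectivity of the stable holonomies -/
def IH (g : X ≃ₜ X) : Prop := ∀ R : I → I → X, Rc g R → R 1 1 = R 1 0 → R 0 1 = R 0 0

end Pool.Agent.Y330.H
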