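import Pool.Agent.Y330.H.B2

set_option autoImplicit false
set_option linter.unusedSectionVars false

open Filter Topology Set Metric unitInterval

namespace Pool.Agent.Y330.H

open Pool.Agent.H789R2.AN Pool.Agent.H789R2.GP Pool.Agent.TH289.L
open Pool.Agent.TH304.K289

variable {X : Type*} [MetricSpace X] [CompactSpace X] {g : X ≃ₜ X} {c : ℝ}

/-- the columns of a rectangle whose unstable sides have level `J` are close to each other -/
theorem col_close (hg : LP g c) {c₁ : ℝ} (hs : Sl g c c₁) (J : ℕ) : ∃ η > 0,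
    ∀ R : I → I → X, Rc g R → (∀ s t, SR g.symm c₁ (g.symm^[J] (R s 0)) (g.symm^[J] (R s t))) →
      ∀ s s', SR g η (R s 0) (R s' 0) → ∀ t, SR g c (R s t) (R s' t) := by
  obtain ⟨η, hη, h1⟩ := hs c hg.c_pos J
  refine ⟨η, hη, fun R hR hl s s' hss t => ?_⟩
  obtain ⟨v, hv⟩ := hR.pathU s
  obtain ⟨Γ, a1, a2, a3, -⟩ := h1 v (R s' 0) (by rw [hv]; exact hss)
    (fun t => by rw [hv, hv]; exact hl s t)
  obtain ⟨Γ', b1, b2⟩ := hR.strip s s'
  have h2 := strip_unique hg Γ Γ' (fun t => by rw [a2, hv, b1]) (t₀ := 0) (by rw [a1, b2]) t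
  have h3 := a3 t
  rwa [h2, b2, hv] at h3

theorem Sl.tr {c₁ : ℝ} (h : Sl g.symm c c₁) : ∀ e > 0, ∀ j : ℕ, ∃ η > 0, ∀ (v : C(I, SM g))
    (s : X), SR g.symm η (v 0).val s → (∀ t, SR g c₁ (g^[j] (v 0).val) (g^[j] (v t).val)) →
    ∃ Γ : C(I, Pr g.symm), (Γ 0).y = s ∧ (∀ t, (Γ t).x = (v t).val) ∧
      (∀ t, SR g.symm e (v t).val (Γ t).y) ∧
      ∀ t, SR g (c / 3) (g^[j] s) (g^[j] (Γ t).y) := h

theorem strip_const' (v : C(I, SM g)) : ∃ Γ : C(I, Pr g.symm), (∀ t, (Γ t).x = (v t).val) ∧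
    ∀ t, (Γ t).y = (v t).val := strip_const (g := g.symm) v

/-- transposed form of `rc_of_strips` -/
theorem rc_of_strips' (hg : LP g c) {c₁ : ℝ} (hc₁ : 0 < c₁) (hs' : Sl g.symm c c₁) (τ : C(I, SM g))
    (v : C(I, SM g.symm)) (h0 : (τ 0).val = (v 0).val)
    (hF : ∀ t, ∃ Δ : C(I, Pr g.symm), (Δ 0).y = (v t).val ∧ ∀ s, (Δ s).x = (τ s).val) :
    ∃ R : I → I → X, Rc g R ∧ (∀ s, R s 0 = (τ s).val) ∧ ∀ t, R 0 t = (v t).val := by
  obtain ⟨R, h1, h2, h3⟩ := rc_of_strips (g := g.symm) hg.symm hc₁ hs' v τ h0.symm hF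
  exact ⟨fun s t => R t s, h1.tr, h3, h2⟩

theorem lifts (hg : LP g c) {c₁ : ℝ} (hc₁ : 0 < c₁) (hs : Sl g c c₁) (hs' : Sl g.symm c c₁)
    {ρ : ℝ} (hρ0 : 0 < ρ) (hρ : ρ ≤ c₁) {a : ℕ} (hQ : QH g ρ a) (j : ℕ) :
    ∃ K : ℕ, ∀ R₀ : I → I → X, Rc g R₀ → Lv g ρ 0 (R₀ 0 0) (R₀ 0 1) →
      ¬ Lv g ρ K (R₀ 1 0) (R₀ 1 1) → ∃ m : ℕ, ∀ w : C(I, SM g.symm), (w 0).val = R₀ 1 0 →
        (∀ t, Lv g ρ j (R₀ 1 0) (w t).val) →
        ∃ R, Rc g R ∧ (∀ s, R s 0 = R₀ (σ s) 0) ∧ (∀ t, R 0 t = (w t).val) ∧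
          (∀ t, Lv g ρ a (R₀ 0 0) (R 1 t)) ∧
          ∀ n ≥ m, ∀ s t, SR g c₁ (g^[n] (R 0 t)) (g^[n] (R s t)) := by
  obtain ⟨k₀, hk₀⟩ := hQ j
  refine ⟨max (a + j) k₀, fun R₀ hR₀ h0 h1 => ?_⟩
  have hK1 : ¬ Lv g ρ (a + j) (R₀ 1 0) (R₀ 1 1) := fun h => h1 (h.mono (le_max_left _ _))
  have hK2 : ¬ Lv g ρ k₀ (R₀ 1 0) (R₀ 1 1) := fun h => h1 (h.mono (le_max_right _ _))
  -- the level of the unstable sides of `R₀`
  obtain ⟨i', hi'⟩ : ∃ i : ℕ, ∀ s, Lv g ρ (i + j) (R₀ s 0) (R₀ s 1) := by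
    obtain ⟨n, hn⟩ := hR₀.cu ρ hρ0
    refine ⟨n, fun s k => ?_⟩
    rw [← Function.iterate_add_apply, ← Function.iterate_add_apply]
    exact hn (k + (n + j)) (by omega) (s, 1)
  obtain ⟨k', hk'⟩ := hQ.shift i'
  obtain ⟨τ, hτ⟩ := (hR₀.reparam (a := fun s => σ s) (b := fun t => t) (by fun_prop)
    continuous_id).pathS 0
  have hτ' : ∀ s, (τ s).val = R₀ (σ s) 0 := hτ
  -- bound (i)
  have bd : ∀ R : I → I → X, Rc g R → (∀ s, R s 0 = R₀ (σ s) 0) →
      (∀ t, Lv g ρ j (R 0 0) (R 0 t)) → ∀ s t, Lv g ρ (k' + j) (R s 0) (R s t) := by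
    intro R hR hb hl s t
    have hA : Rc g (fun s' t' => R (s * s') (t * t')) :=
      hR.reparam (a := fun s' => s * s') (b := fun t' => t * t') (by fun_prop) (by fun_prop)
    have hB : Rc g (fun s' t' => R₀ (σ (s * s')) t') :=
      hR₀.reparam (a := fun s' => σ (s * s')) (b := fun t' => t') (by fun_prop) continuous_id
    have := hk' j _ _ hA hB (fun s' => by
        show R (s * s') (t * 0) = R₀ (σ (s * s')) 0
        rw [mul_zero, hb])
      (by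
        show Lv g ρ j (R (s * 0) (t * 0)) (R (s * 0) (t * 1))
        rw [mul_zero, mul_zero, mul_one]
        exact hl t)
      (by
        show ¬ Lv g ρ (a + j) (R₀ (σ (s * 0)) 0) (R₀ (σ (s * 0)) 1)
        rw [mul_zero, unitInterval.symm_zero]
        exact hK1)
      (by
        show Lv g ρ (i' + j) (R₀ (σ (s * 1)) 0) (R₀ (σ (s * 1)) 1)
        exact hi' _)
    have e : Lv g ρ (k' + j) (R (s * 1) (t * 0)) (R (s * 1) (t * 1)) := this
    rwa [mul_one, mul_one, mul_zero] at e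
  obtain ⟨η, hη, hcol⟩ := col_close hg hs (k' + j)
  obtain ⟨C, hC⟩ := chain hg τ hη
  obtain ⟨m, hm⟩ := qs_exists_pow (c := max C 1) (by positivity) hc₁
  -- bound (iii)
  have bd3 : ∀ R : I → I → X, Rc g R → (∀ s, R s 0 = R₀ (σ s) 0) →
      (∀ t, Lv g ρ j (R 0 0) (R 0 t)) → ∀ n ≥ m, ∀ s t, SR g c₁ (g^[n] (R 0 t)) (g^[n] (R s t)) := by
    intro R hR hb hl n hn s t k
    have h2 := hC (fun s => R s t) (fun s s' hss => hcol R hR
      (fun s t => (bd R hR hb hl s t).mono' hρ) s s'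
      (by rw [hb, hb, ← hτ', ← hτ']; exact hss) t) (k + n) s
    rw [← Function.iterate_add_apply, ← Function.iterate_add_apply]
    refine h2.trans (le_trans ?_ (hm (k + n) (by omega)).le)
    exact mul_le_mul_of_nonneg_right (le_max_left _ _) (by positivity)
  refine ⟨m, fun w hw0 hwl => ?_⟩
  obtain ⟨η', hη', hsl⟩ := hs'.tr 1 one_pos m
  have hu : UniformContinuous w := CompactSpace.uniformContinuous_of_continuous w.continuous
  rw [Metric.uniformContinuous_iff] at hu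
  obtain ⟨δ, hδ, hwδ⟩ := hu η' hη'
  let S : I → Prop := fun t => ∃ Δ : C(I, Pr g.symm), (Δ 0).y = (w t).val ∧
    ∀ s, (Δ s).x = (τ s).val
  -- the rectangle over an initial piece
  have hrect : ∀ t, (∀ t' ≤ t, S t') → ∃ R, Rc g R ∧ (∀ s, R s 0 = R₀ (σ s) 0) ∧
      ∀ t', R 0 t' = (w (t * t')).val := by
    intro t ht
    let w' : C(I, SM g.symm) := ⟨fun t' => w (t * t'), by fun_prop⟩
    obtain ⟨R, a1, a2, a3⟩ := rc_of_strips' hg hc₁ hs' τ w'
      (by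
        show (τ 0).val = (w (t * 0)).val
        rw [mul_zero, hw0, hτ', unitInterval.symm_zero])
      (fun t' => ht (t * t') (unitInterval.mul_le_left))
    exact ⟨R, a1, fun s => by rw [a2, hτ'], a3⟩
  have hlev : ∀ t, ∀ R : I → I → X, (∀ s, R s 0 = R₀ (σ s) 0) →
      (∀ t', R 0 t' = (w (t * t')).val) → ∀ t', Lv g ρ j (R 0 0) (R 0 t') := by
    intro t R a2 a3 t'
    rw [a2, a3, unitInterval.symm_zero]
    exact hwl _
  have hstep : ∀ t, (∀ t' ≤ t, S t') → ∀ t'', dist t t'' < δ → S t'' := by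
    intro t ht t'' htt
    obtain ⟨R, a1, a2, a3⟩ := hrect t ht
    have b3 := bd3 R a1 a2 (hlev t R a2 a3)
    obtain ⟨v₃, hv₃⟩ := a1.pathS 1
    have e1 : R 0 1 = (w t).val := by rw [a3, mul_one]
    obtain ⟨Γ₃, c1, c2, -, -⟩ := hsl v₃ (w t'').val
      (by
        rw [hv₃, e1]
        exact (SM.dist_le _ _ hη'.le).mp (hwδ htt).le)
      (fun s => by
        rw [hv₃, hv₃]
        exact b3 m le_rfl s 1)
    obtain ⟨Γ₄, d1, d2⟩ := a1.tr.strip 0 1
    obtain ⟨Γ₅, f1, f2⟩ := strip_comp Γ₄ Γ₃ (fun s => by rw [c2, d2, hv₃])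
    exact ⟨Γ₅, by rw [f2, c1], fun s => by rw [f1, d1, a2, hτ']⟩
  have hall : ∀ n : ℕ, ∀ t : I, (t : ℝ) ≤ n * (δ / 2) → S t := by
    intro n
    induction n with
    | zero =>
      intro t ht
      have ht0 : t = 0 := by
        apply Subtype.ext
        have := t.2.1
        push_cast at ht
        rw [zero_mul] at ht
        exact le_antisymm ht this
      obtain ⟨Δ, e1, e2⟩ := strip_const' τ
      exact ⟨Δ, by rw [e2, ht0, hw0, hτ', unitInterval.symm_zero], e1⟩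
    | succ n ih =>
      intro t ht
      push_cast at ht
      set t₁ : I := Set.projIcc 0 1 zero_le_one ((t : ℝ) - δ / 2) with ht₁
      have hnn : (0 : ℝ) ≤ n * (δ / 2) := by positivity
      have e1 : (t₁ : ℝ) = max 0 (min 1 ((t : ℝ) - δ / 2)) := by
        rw [ht₁, Set.coe_projIcc]
      have ht2 := t.2.1
      have ht3 := t.2.2
      have e2 : (t₁ : ℝ) = max 0 ((t : ℝ) - δ / 2) := by
        rw [e1, min_eq_right (by linarith)]
      refine hstep t₁ (fun t' ht' => ih t' ?_) t ?_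
      · have : (t' : ℝ) ≤ t₁ := ht'
        rw [e2] at this
        refine this.trans (max_le hnn (by linarith))
      · rw [Subtype.dist_eq, Real.dist_eq, e2]
        rcases max_cases (0:ℝ) ((t : ℝ) - δ / 2) with h | h
        · rw [h.1, zero_sub, abs_neg, abs_of_nonneg ht2]
          linarith
        · rw [h.1]
          have : (t : ℝ) - δ / 2 - t = -(δ / 2) := by ring
          rw [this, abs_neg, abs_of_pos (by linarith)]
          linarith
  have hS : ∀ t, S t := by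
    intro t
    obtain ⟨n, hn⟩ := exists_nat_gt (1 / (δ / 2))
    refine hall n t (t.2.2.trans ?_)
    rw [div_lt_iff₀ (half_pos hδ)] at hn
    exact hn.le
  obtain ⟨R, a1, a2, a3⟩ := hrect 1 (fun t _ => hS t)
  have a3' : ∀ t, R 0 t = (w t).val := fun t => by rw [a3, one_mul]
  refine ⟨R, a1, a2, a3', fun t => ?_, bd3 R a1 a2 (hlev 1 R a2 a3)⟩
  by_contra hcon
  apply hK2
  have hB : Rc g (fun s' t' => R (σ s') (t * t')) :=
    a1.reparam (a := fun s' => σ s') (b := fun t' => t * t') (by fun_prop) (by fun_prop)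
  refine hk₀ R₀ _ hR₀ hB (fun s => ?_) h0 ?_ ?_
  · show R₀ s 0 = R (σ s) (t * 0)
    rw [mul_zero, a2, unitInterval.symm_symm]
  · show ¬ Lv g ρ a (R (σ 0) (t * 0)) (R (σ 0) (t * 1))
    rw [mul_zero, mul_one, unitInterval.symm_zero, a2, unitInterval.symm_one]
    exact hcon
  · show Lv g ρ j (R (σ 1) (t * 0)) (R (σ 1) (t * 1))
    rw [mul_zero, mul_one, unitInterval.symm_one, a2, a3', unitInterval.symm_zero]
    exact hwl t

end Pool.Agent.Y330.H
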