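import Pool.Agent.Y330.H.B3

set_option autoImplicit false
set_option linter.unusedSectionVars false

open Filter Topology Set Metric unitInterval

namespace Pool.Agent.Y330.H

open Pool.Agent.H789R2.AN Pool.Agent.H789R2.GP Pool.Agent.TH289.L
open Pool.Agent.TH304.K289

variable {X : Type*} [MetricSpace X] [CompactSpace X] {g : X ≃ₜ X} {c : ℝ}

theorem sep_lemma (hg : LP g c) (hX : ULC X) {c₁ : ℝ} (hc₁ : 0 < c₁) (hs : Sl g c c₁)
    (hI : IH g) : ∃ θ > 0, ∀ (R R' : I → I → X) (n : ℕ), Rc g R → Rc g R' →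
      (∀ s, R s 0 = R' s 0) → (∀ s, SR g θ (g^[n] (R 0 1)) (g^[n] (R s 1))) →
      SR g.symm θ (g^[n] (R 1 1)) (g^[n] (R' 1 1)) →
      SR g.symm (c / 3) (g^[n] (R 0 1)) (g^[n] (R' 0 1)) := by
  obtain ⟨η, hη, hsl⟩ := hs 1 one_pos 0
  obtain ⟨η₁, hη₁, hp⟩ := leaf_path hg.symm hX c₁ hc₁
  refine ⟨min (η / 2) η₁, by positivity, fun R R' n hR hR' h0 hrow hend => ?_⟩
  obtain ⟨κ, hκ0, hκ1, hκ⟩ := hp ⟨g^[n] (R 1 1)⟩ ⟨g^[n] (R' 1 1)⟩
    ((SM.dist_le _ _ hη₁.le).2 (hend.mono (min_le_right _ _)))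
  have hκ' : ∀ t, SR g.symm c₁ (κ 0).val (κ t).val := fun t => by
    rw [hκ0]
    exact (SM.dist_le _ _ hc₁.le).1 (hκ t)
  have hRn := hR.iter n
  have hRn' := hR'.iter n
  obtain ⟨τ, hτ⟩ := (hRn.reparam (a := fun s => σ s) (b := fun t => t) (by fun_prop)
    continuous_id).pathS 1
  have hτ' : ∀ s, (τ s).val = g^[n] (R (σ s) 1) := hτ
  have hτ0 : (τ 0).val = (κ 0).val := by
    rw [hτ', hκ0, unitInterval.symm_zero]
  have hex : ∀ s, ∃ Γ : C(I, Pr g), (Γ 0).y = (τ s).val ∧ (∀ t, (Γ t).x = (κ t).val) ∧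
      ∀ t, SR g.symm (c / 3) (τ s).val (Γ t).y := by
    intro s
    have e1 : SR g η (κ 0).val (τ s).val := by
      rw [← hτ0, hτ', hτ', unitInterval.symm_zero]
      have := qs_SR_add (hrow 1).symm' (hrow (σ s))
      exact this.mono (by linarith [min_le_left (η / 2) η₁])
    obtain ⟨Γ, a1, a2, -, a4⟩ := hsl κ (τ s).val e1 hκ'
    exact ⟨Γ, a1, a2, a4⟩
  obtain ⟨Φ, hΦ, hΦ0, hΦ1⟩ := rc_of_strips hg hc₁ hs τ κ hτ0
    (fun s => by obtain ⟨Γ, a1, a2, -⟩ := hex s; exact ⟨Γ, a1, a2⟩)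
  have hfar : SR g.symm (c / 3) (τ 1).val (Φ 1 1) := by
    obtain ⟨Γ, a1, a2, a3⟩ := hex 1
    obtain ⟨Γ', b1, b2⟩ := hΦ.strip 0 1
    have := strip_unique hg Γ' Γ (fun t => by rw [b1, hΦ1, a2]) (t₀ := 0)
      (by rw [b2, hΦ0, a1]) 1
    rw [b2] at this
    rw [this]
    exact a3 1
  -- gluing
  have hA : Rc g (fun s t => g^[n] (R' s (σ t))) :=
    hRn'.reparam (a := fun s => s) (b := fun t => σ t) continuous_id (by fun_prop)
  have hC : Rc g (fun s t => Φ (σ s) t) :=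
    hΦ.reparam (a := fun s => σ s) (b := fun t => t) (by fun_prop) continuous_id
  obtain ⟨T₁, hT₁, t1, t2⟩ := hA.glue hRn (fun s => by
    show g^[n] (R' s (σ 1)) = g^[n] (R s 0)
    rw [unitInterval.symm_one, h0])
  obtain ⟨T, hT, t3, t4⟩ := hT₁.glue hC (fun s => by
    show T₁ s 1 = Φ (σ s) 0
    rw [t2, hΦ0, hτ', unitInterval.symm_symm])
  have e0 : ∀ s, T s 0 = g^[n] (R' s 1) := fun s => by
    rw [t3, t1]
    show g^[n] (R' s (σ 0)) = _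
    rw [unitInterval.symm_zero]
  have e1 : ∀ s, T s 1 = Φ (σ s) 1 := t4
  have hkey : T 0 1 = T 0 0 := by
    apply hI T hT
    rw [e0, e1, unitInterval.symm_one, hΦ1, hκ1]
  rw [e0, e1, unitInterval.symm_zero] at hkey
  rw [hkey, hτ', unitInterval.symm_one] at hfar
  exact hfar

end Pool.Agent.Y330.H
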