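import Pool.Agent.Y330.G.A4
import Pool.Agent.Y330.H.B4

set_option autoImplicit false
set_option linter.unusedSectionVars false

open Filter Topology Set Metric unitInterval

namespace Pool.Agent.Y330.H

open Pool.Agent.H789R2.AN Pool.Agent.H789R2.GP
open Pool.Agent.Y330.G

variable {X : Type*} [MetricSpace X] [CompactSpace X] {g : X ≃ₜ X} {c : ℝ}

theorem finite_of_contr (h : LP g c) {K : Set X} (hK : ∀ x, g x ∈ K ↔ x ∈ K) {δ : ℝ}
    (hδ : 0 < δ) (hc : ∀ x ∈ K, ∀ y ∈ K, dist x y < δ → SR g c x y) : K.Finite := by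
  classical
  by_contra hinf
  have hinf' : K.Infinite := hinf
  obtain ⟨t, -, ht, hcov⟩ := (isCompact_univ (X := X)).finite_cover_balls (half_pos hδ)
  have hch : ∀ x : X, ∃ p ∈ t, dist x p < δ / 2 := by
    intro x
    have := hcov (mem_univ x)
    simpa using this
  choose p hp hd using hch
  obtain ⟨F, hF, hFc⟩ := hinf'.exists_subset_card_eq (ht.toFinset.card + 1)
  have h5 : Tendsto (fun n : ℕ => c * (1 / 2 : ℝ) ^ n) atTop (𝓝 0) := by
    have := (tendsto_pow_atTop_nhds_zero_of_lt_one (by norm_num : (0:ℝ) ≤ 1 / 2)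
      (by norm_num)).const_mul c
    simpa using this
  have h6 : ∀ᶠ n : ℕ in atTop, ∀ x ∈ F, ∀ y ∈ F, x ≠ y → c * (1 / 2 : ℝ) ^ n < dist x y := by
    rw [Filter.eventually_all_finset]
    intro x _
    rw [Filter.eventually_all_finset]
    intro y _
    by_cases hxy : x = y
    · exact Eventually.of_forall fun n h => absurd hxy h
    · filter_upwards [(tendsto_order.mp h5).2 _ (dist_pos.mpr hxy)] with n hn _
      exact hn
  obtain ⟨n, hn⟩ := h6.exists
  obtain ⟨x, hx, y, hy, hne, he⟩ := Finset.exists_ne_map_eq_of_card_lt_of_maps_to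
    (s := F) (t := ht.toFinset) (f := fun x => p (g.symm^[n] x)) (by omega)
    (fun x _ => by simpa using hp _)
  have hKs : ∀ z, z ∈ K → g.symm^[n] z ∈ K := fun z hz =>
    (inv_iter (inv_symm hK) n z).mpr hz
  have h7 : dist (g.symm^[n] x) (g.symm^[n] y) < δ := by
    have a1 := hd (g.symm^[n] x)
    have a2 := hd (g.symm^[n] y)
    rw [he] at a1
    have := dist_triangle_right (g.symm^[n] x) (g.symm^[n] y) (p (g.symm^[n] y))
    linarith
  have h8 := h.cS _ _ (hc _ (hKs x (hF hx)) _ (hKs y (hF hy)) h7) n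
  rw [iterR, iterR] at h8
  exact absurd h8 (not_le.mpr (hn x hx y hy hne))

/-- trivial local stable sets -/
theorem triv_up (h : LP g c) (hX : ULC X) : ∃ η₀ > 0, η₀ ≤ c ∧ ∀ (x : X) (ε : ℝ), 0 < ε →
    (∀ y, SR g ε x y → y = x) → ∀ y, SR g η₀ x y → y = x := by
  obtain ⟨η, hη, h1⟩ := leaf_path h hX c h.c_pos
  refine ⟨min η c, lt_min hη h.c_pos, min_le_right _ _, fun x ε hε hx y hxy => ?_⟩
  obtain ⟨υ, h2, h3, -⟩ := h1 ⟨x⟩ ⟨y⟩ ((SM.dist_le _ _ hη.le).2 (hxy.mono (min_le_left _ _)))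
  have hcl : IsClopen {t | υ t = ⟨x⟩} := by
    refine ⟨isClosed_eq υ.continuous continuous_const, ?_⟩
    rw [isOpen_iff_mem_nhds]
    intro t ht
    have h4 : ∀ᶠ t' in 𝓝 t, dist (υ t') (υ t) < ε :=
      (Metric.tendsto_nhds.mp (υ.continuous.tendsto t)) ε hε
    filter_upwards [h4] with t' ht'
    have ht2 : υ t = ⟨x⟩ := ht
    rw [ht2, dist_comm] at ht'
    exact SM.ext (hx _ ((SM.dist_le _ _ hε.le).1 ht'.le))
  have h5 := hcl.eq_univ ⟨0, h2⟩
  have h6 : (1 : I) ∈ {t | υ t = ⟨x⟩} := by rw [h5]; trivial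
  have h7 : υ 1 = ⟨x⟩ := h6
  rw [h3] at h7
  exact congrArg SM.val h7

theorem triv_near (h : LP g c) (hX : ULC X) : ∃ η₀ > 0, η₀ ≤ c ∧ (∀ (x : X) (ε : ℝ), 0 < ε →
    (∀ y, SR g ε x y → y = x) → ∀ y, SR g η₀ x y → y = x) ∧ ∃ δ > 0, ∀ x x' : X, dist x x' < δ →
      (∀ y, SR g η₀ x y → y = x) → ∀ y, SR g η₀ x' y → y = x' := by
  obtain ⟨η₀, hη₀, hη₀c, hup⟩ := triv_up h hX
  refine ⟨η₀, hη₀, hη₀c, hup, ?_⟩
  obtain ⟨δ, hδ, hh⟩ := hol h.symm (η := η₀ / 2) (half_pos hη₀)
  refine ⟨δ, hδ, fun x x' hxx hx => hup x' (η₀ / 2) (half_pos hη₀) fun y hy => ?_⟩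
  have key : ∀ y, SR g (η₀ / 2) x' y → SR g.symm (η₀ / 2) y x := by
    intro y hy
    obtain ⟨w, a1, a2⟩ := hh (η₀ / 2) (by linarith) x' x y (by rwa [dist_comm]) hy
    have a2' : SR g (η₀ / 2 + η₀ / 2) x w := a2
    rw [add_halves] at a2'
    rwa [hx w a2'] at a1
  have b1 := key y hy
  have b2 := key x' (sr_refl g (half_pos hη₀).le x')
  have b3 : SR g.symm η₀ y x' := by
    have := sr_tr b1 b2.symm'
    rwa [add_halves] at this
  exact expans h (hy.symm'.mono (by linarith)) (b3.mono hη₀c)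

theorem triv_none [ConnectedSpace X] [Nontrivial X] (h : LP g c) (hX : ULC X) (x : X) {ε : ℝ}
    (hε : 0 < ε) : ∃ y, SR g ε x y ∧ y ≠ x := by
  obtain ⟨η₀, hη₀, hη₀c, hup, δ, hδ, hnear⟩ := triv_near h hX
  by_contra hcon
  push Not at hcon
  have hx := hup x ε hε hcon
  set T : Set X := {x | ∀ y, SR g η₀ x y → y = x} with hT
  have hcl : IsClopen T := by
    constructor
    · rw [← isOpen_compl_iff, Metric.isOpen_iff]
      intro z hz
      refine ⟨δ, hδ, fun z' hz' hz2 => hz (hnear z' z hz' hz2)⟩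
    · rw [Metric.isOpen_iff]
      intro z hz
      exact ⟨δ, hδ, fun z' hz' => hnear z z' (by rw [dist_comm]; exact hz') hz⟩
  have huniv : T = univ := hcl.eq_univ ⟨x, hx⟩
  obtain ⟨δ', hδ', hlp⟩ := h.lp η₀ hη₀
  have hfin : (univ : Set X).Finite := by
    refine finite_of_contr h.symm (K := univ) (fun _ => by simp) hδ' (fun x _ y _ hxy => ?_)
    obtain ⟨z, h1, h2⟩ := hlp y x (by rwa [dist_comm])
    have hy : y ∈ T := by rw [huniv]; trivial
    rw [hy z h1] at h2
    exact h2.mono hη₀c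
  have hf : Finite X := Set.finite_univ_iff.mp hfin
  have : Subsingleton X := PreconnectedSpace.trivial_of_discrete
  exact not_subsingleton X this

theorem rep_pair [ConnectedSpace X] [Nontrivial X] (h : LP g c) (hX : ULC X) {R : Set X}
    (hR : MinAtt g.symm R) {ε : ℝ} (hε : 0 < ε) :
    ∃ x ∈ R, ∃ y ∈ R, y ≠ x ∧ SR g.symm ε x y := by
  by_contra hcon
  push Not at hcon
  obtain ⟨δ, hδ, hlp⟩ := h.lp (min ε c) (lt_min hε h.c_pos)
  have hfin : R.Finite := by
    refine finite_of_contr h (K := R) (fun x => ?_) hδ (fun x hx y hy hxy => ?_)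
    · have := hR.1.inv (g x)
      rw [g.symm_apply_apply] at this
      exact this.symm
    · obtain ⟨z, h1, h2⟩ := hlp x y hxy
      have hz : z ∈ R := hR.1.sat x hx z (WS.of_SR (h.cS _ _ (h1.mono (min_le_right _ _))))
      have hzy : z = y := by
        by_contra hne
        exact hcon y hy z hz hne (h2.mono (min_le_left _ _))
      rw [hzy] at h1
      exact h1.mono (min_le_right _ _)
  obtain ⟨x, hx⟩ := hR.1.nonempty
  have hiso : ∃ ε' > 0, ∀ y ∈ R, y ≠ x → ε' < dist x y := by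
    have h1 : IsOpen ((R \ {x})ᶜ) := (hfin.subset sdiff_subset).isClosed.isOpen_compl
    obtain ⟨r, hr, hball⟩ := Metric.isOpen_iff.mp h1 x (by simp)
    refine ⟨r / 2, half_pos hr, fun y hy hne => ?_⟩
    by_contra hcon2
    push Not at hcon2
    have : y ∈ ball x r := by rw [mem_ball, dist_comm]; linarith
    exact hball this ⟨hy, hne⟩
  obtain ⟨ε', hε', h1⟩ := hiso
  obtain ⟨y, h2, h3⟩ := triv_none h hX x (lt_min hε' h.c_pos)
  have hy : y ∈ R := hR.1.sat x hx y (WS.of_SR (h.cS _ _ (h2.mono (min_le_right _ _))))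
  have h4 := h1 y hy h3
  have h5 := (h2 0).trans (min_le_left _ _)
  simp only [Function.iterate_zero, id] at h5
  linarith

theorem rep_acc [ConnectedSpace X] [Nontrivial X] (h : LP g c) (hX : ULC X) {R : Set X}
    (hR : MinAtt g.symm R) {ε : ℝ} (hε : 0 < ε) {r : X} (hr : r ∈ R) :
    ∃ y ∈ R, y ≠ r ∧ SR g.symm ε r y := by
  by_contra hcon
  push Not at hcon
  have hc := h.c_pos
  set ε₀ := min ε (c / 4) with hε₀
  have hε₀0 : 0 < ε₀ := by positivity
  have hε₀c : ε₀ ≤ c / 4 := min_le_right _ _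
  obtain ⟨δ, hδ, hlp⟩ := h.lp ε₀ hε₀0
  set η := min (c / 4) (δ / 4) with hη
  have hη0 : 0 < η := by positivity
  have hηc : η ≤ c / 4 := min_le_left _ _
  have hηδ : η ≤ δ / 4 := min_le_right _ _
  have hinv : ∀ (J : ℕ) (z : X), g^[J] z ∈ R ↔ z ∈ R := fun J z =>
    inv_iter (fun x => by rw [← hR.1.inv (g x), g.symm_apply_apply]) J z
  obtain ⟨x, hx, y, hy, hne, hxy⟩ := rep_pair h hX hR hη0
  obtain ⟨J, z, h1, h2⟩ := conn h hR hr hε₀0 hη0 hx
  have hz : z ∈ R := by
    rw [← hinv J z]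
    exact hR.1.sat x hx _ (WS.of_SR (h.cS _ _ (h2.mono (by linarith))))
  have hzr : z = r := by
    by_contra hne'
    exact hcon z hz hne' (h1.mono (min_le_left _ _))
  rw [hzr] at h2
  have hd : dist y (g^[J] r) < δ := by
    have a1 := hxy 0
    have a2 := h2 0
    simp only [Function.iterate_zero, id] at a1 a2
    have := dist_triangle_left y (g^[J] r) x
    linarith
  obtain ⟨w, h3, h4⟩ := hlp _ _ hd
  have hw : w ∈ R := hR.1.sat y hy w (WS.of_SR (h.cS _ _ (h3.mono (by linarith))))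
  have hw' : g.symm^[J] w ∈ R := (inv_iter hR.1.inv J w).mpr hw
  have h5 : SR g.symm ε₀ r (g.symm^[J] w) := by
    have := h4.shift J
    rwa [iterL] at this
  have h6 : g.symm^[J] w = r := by
    by_contra hne'
    exact hcon _ hw' hne' (h5.mono (min_le_left _ _))
  have h7 : w = g^[J] r := by rw [← h6, iterR]
  rw [h7] at h3
  have h8 : SR g c x y := (sr_tr h2 h3.symm').mono (by linarith)
  exact hne (expans h h8 (hxy.mono (by linarith))).symm

theorem rep_inf [ConnectedSpace X] [Nontrivial X] (h : LP g c) (hX : ULC X) {R : Set X}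
    (hR : MinAtt g.symm R) {ε : ℝ} (hε : 0 < ε) {r : X} (hr : r ∈ R) :
    {y | y ∈ R ∧ SR g.symm ε r y}.Infinite := by
  intro hfin
  have h1 : IsOpen (({y | y ∈ R ∧ SR g.symm ε r y} \ {r})ᶜ) :=
    (hfin.subset sdiff_subset).isClosed.isOpen_compl
  obtain ⟨ρ, hρ, hball⟩ := Metric.isOpen_iff.mp h1 r (by simp)
  obtain ⟨y, hy, hne, h2⟩ := rep_acc h hX hR (show 0 < min ε (ρ / 2) by positivity) hr
  have h3 : y ∈ ball r ρ := by
    have := (h2 0).trans (min_le_right _ _)
    simp only [Function.iterate_zero, id] at this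
    rw [mem_ball, dist_comm]
    linarith
  exact hball h3 ⟨⟨hy, h2.mono (min_le_left _ _)⟩, hne⟩

/-- many separated points of the repeller in every local unstable set -/
theorem rep_many [ConnectedSpace X] [Nontrivial X] (h : LP g c) (hX : ULC X) {R : Set X}
    (hR : MinAtt g.symm R) (L : ℕ) : ∃ j : ℕ, ∀ r ∈ R, ∃ F : Finset X,
      (∀ y ∈ F, y ∈ R ∧ SR g.symm (c / 4) r y) ∧ Sep g (7 * c / 8) j F ∧ F.card = L := by
  classical
  have hc := h.c_pos
  have key : ∃ j : ℕ, ∀ r ∈ R ∩ R, ∃ F : Finset X,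
      (∀ y ∈ F, y ∈ R ∧ SR g.symm (c / 4) r y) ∧ Sep g (7 * c / 8) j F ∧ F.card = L := by
    refine (hR.1.closed.isCompact).induction_on (p := fun S => ∃ j : ℕ, ∀ r ∈ S ∩ R,
      ∃ F : Finset X, (∀ y ∈ F, y ∈ R ∧ SR g.symm (c / 4) r y) ∧ Sep g (7 * c / 8) j F ∧
        F.card = L) ?_ ?_ ?_ ?_
    · exact ⟨0, fun v hv => absurd hv.1 (notMem_empty v)⟩
    · rintro S T hST ⟨j, h1⟩
      exact ⟨j, fun v hv => h1 v ⟨hST hv.1, hv.2⟩⟩
    · rintro S T ⟨j, h1⟩ ⟨j', h2⟩
      refine ⟨max j j', fun v hv => ?_⟩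
      rcases hv with ⟨hv | hv, hvR⟩
      · obtain ⟨F, a1, a2, a3⟩ := h1 v ⟨hv, hvR⟩
        exact ⟨F, a1, a2.mono le_rfl (le_max_left _ _), a3⟩
      · obtain ⟨F, a1, a2, a3⟩ := h2 v ⟨hv, hvR⟩
        exact ⟨F, a1, a2.mono le_rfl (le_max_right _ _), a3⟩
    · intro r hr
      obtain ⟨F, hF, hFc⟩ := (rep_inf h hX hR (show 0 < c / 8 by positivity) hr).exists_subset_card_eq L
      have hsep : ∀ᶠ j : ℕ in atTop, ∀ y ∈ F, ∀ y' ∈ F, y ≠ y' →
          ∃ k ≤ j, c < dist (g^[k] y) (g^[k] y') := by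
        rw [Filter.eventually_all_finset]
        intro y hy
        rw [Filter.eventually_all_finset]
        intro y' hy'
        by_cases hyy : y = y'
        · exact Eventually.of_forall fun n h => absurd hyy h
        · have a1 : SR g.symm c y y' :=
            (sr_tr (hF hy).2.symm' (hF hy').2).mono (by linarith)
          have a2 : ¬ SR g c y y' := fun hs => hyy (expans h hs a1)
          unfold SR at a2
          push Not at a2
          obtain ⟨k, hk⟩ := a2
          filter_upwards [eventually_ge_atTop k] with j hj _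
          exact ⟨k, hj, hk⟩
      obtain ⟨j, hj⟩ := hsep.exists
      obtain ⟨δ, hδ, hh⟩ := hol h (show 0 < c / 16 by positivity)
      refine ⟨ball r δ, mem_nhdsWithin_of_mem_nhds (ball_mem_nhds r hδ), j, fun r' hr' => ?_⟩
      have hch : ∀ y, ∃ y', y ∈ F → SR g (c / 16) y y' ∧ SR g.symm (c / 8 + c / 16) r' y' := by
        intro y
        by_cases hy : y ∈ F
        · obtain ⟨y', a1, a2⟩ := hh (c / 8) (by linarith) r r' y (by rw [dist_comm]; exact hr'.1)
            (hF hy).2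
          exact ⟨y', fun _ => ⟨a1, a2⟩⟩
        · exact ⟨y, fun h => absurd h hy⟩
      choose φ hφ using hch
      have hs2 : ∀ y ∈ F, ∀ y' ∈ F, y ≠ y' →
          ∃ k ≤ j, 7 * c / 8 < dist (g^[k] (φ y)) (g^[k] (φ y')) := by
        intro y hy y' hy' hne
        obtain ⟨k, hk, h3⟩ := hj y hy y' hy' hne
        refine ⟨k, hk, ?_⟩
        have h4 := (hφ y hy).1 k
        have h5 := (hφ y' hy').1 k
        have := dist_triangle4_right (g^[k] y) (g^[k] y') (g^[k] (φ y)) (g^[k] (φ y'))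
        linarith
      have hinj : Set.InjOn φ F := by
        intro p hp p' hp' he
        by_contra hne
        obtain ⟨k, -, hk⟩ := hs2 p hp p' hp' hne
        rw [he, dist_self] at hk
        linarith
      refine ⟨F.image φ, ?_, ?_, ?_⟩
      · intro z hz
        obtain ⟨y, hy, rfl⟩ := Finset.mem_image.mp hz
        refine ⟨hR.1.sat y (hF hy).1 _ (WS.of_SR (h.cS _ _ ((hφ y hy).1.mono (by linarith)))),
          (hφ y hy).2.mono (by linarith)⟩
      · intro a ha b hb hab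
        obtain ⟨p, hp, rfl⟩ := Finset.mem_image.mp ha
        obtain ⟨p', hp', rfl⟩ := Finset.mem_image.mp hb
        exact hs2 p hp p' hp' fun e => hab (by rw [e])
      · rw [Finset.card_image_of_injOn hinj, hFc]
  obtain ⟨j, hj⟩ := key
  exact ⟨j, fun r hr => hj r ⟨hr, hr⟩⟩

end Pool.Agent.Y330.H
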