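import Pool.Agent.Y330.H.B5

set_option autoImplicit false
set_option linter.unusedSectionVars false

open Filter Topology Set Metric unitInterval

namespace Pool.Agent.Y330.H

open Pool.Agent.H789R2.AN Pool.Agent.H789R2.GP
open Pool.Agent.Y330.G

variable {X : Type*} [MetricSpace X] [CompactSpace X] {g : X ≃ₜ X} {c : ℝ}

/-- Uniform connections inside a minimal repeller. -/
theorem conn_rep (h : LP g c) {R : Set X}
    (hR : MinAtt g.symm R) {ε η : ℝ} (hε : 0 < ε) (hε1 : ε ≤ c) (hη : 0 < η) :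
    ∃ N : ℕ, ∀ r ∈ R, ∀ v ∈ R, ∃ J ≤ N, ∃ z : X, SR g.symm ε r z ∧ SR g η v (g^[J] z) := by
  have key : ∃ N : ℕ, ∀ r ∈ R ∩ R, ∀ v ∈ R, ∃ J ≤ N, ∃ z : X,
      SR g.symm ε r z ∧ SR g η v (g^[J] z) := by
    refine (hR.1.closed.isCompact).induction_on (p := fun S => ∃ N : ℕ, ∀ r ∈ S ∩ R, ∀ v ∈ R,
      ∃ J ≤ N, ∃ z : X, SR g.symm ε r z ∧ SR g η v (g^[J] z)) ?_ ?_ ?_ ?_
    · exact ⟨0, fun v hv => absurd hv.1 (notMem_empty v)⟩
    · rintro S T hST ⟨N, h1⟩
      exact ⟨N, fun v hv => h1 v ⟨hST hv.1, hv.2⟩⟩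
    · rintro S T ⟨N, h1⟩ ⟨N', h2⟩
      refine ⟨max N N', fun r hr v hv => ?_⟩
      rcases hr with ⟨hr | hr, hrR⟩
      · obtain ⟨J, hJ, h3⟩ := h1 r ⟨hr, hrR⟩ v hv
        exact ⟨J, hJ.trans (le_max_left _ _), h3⟩
      · obtain ⟨J, hJ, h3⟩ := h2 r ⟨hr, hrR⟩ v hv
        exact ⟨J, hJ.trans (le_max_right _ _), h3⟩
    · intro r hr
      obtain ⟨N, hN⟩ := conn_unif h hR hr (half_pos hε) (half_pos hη)
      obtain ⟨δ, hδ, hh⟩ := hol h (show 0 < min (ε / 2) (η / 2) from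
        lt_min (half_pos hε) (half_pos hη))
      refine ⟨ball r δ, mem_nhdsWithin_of_mem_nhds (ball_mem_nhds r hδ), N,
        fun r' hr' v hv => ?_⟩
      obtain ⟨J, hJ, z, hz1, hz2⟩ := hN v hv
      obtain ⟨z', h1, h2⟩ := hh (ε / 2) (by linarith) r r' z
        (by rw [dist_comm]; exact hr'.1) hz1
      refine ⟨J, hJ, z', h2.mono ?_, fun k => ?_⟩
      · have := min_le_left (ε / 2) (η / 2)
        linarith
      · have h3 := h1 (k + J)
        rw [Function.iterate_add_apply, Function.iterate_add_apply] at h3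
        have h4 := hz2 k
        have h5 := min_le_right (ε / 2) (η / 2)
        have := dist_triangle (g^[k] v) (g^[k] (g^[J] z)) (g^[k] (g^[J] z'))
        linarith
  obtain ⟨N, hN⟩ := key
  exact ⟨N, fun r hr v hv => hN r ⟨hr, hr⟩ v hv⟩

/-- The growth of the local unstable sets is uniform on a minimal repeller. -/
theorem growth_rep (h : LP g c) {R : Set X} (hR : MinAtt g.symm R) :
    ∃ C : ℕ, ∀ n, ∀ x ∈ R, ∀ y ∈ R, P g (c / 4) (c / 2) n x ≤ C * P g (c / 4) (c / 2) n y := by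
  classical
  have hc := h.c_pos
  have hinv : ∀ (J : ℕ) (z : X), g^[J] z ∈ R ↔ z ∈ R := fun J z =>
    inv_iter (fun x => by rw [← hR.1.inv (g x), g.symm_apply_apply]) J z
  obtain ⟨δ, hδ, hh⟩ := hol h (show 0 < c / 16 by linarith)
  obtain ⟨N, hN⟩ := conn_rep h hR (ε := c) (η := δ / 2) hc le_rfl (half_pos hδ)
  obtain ⟨J₀, hJ₀⟩ := pw (c := c) (show 0 < c / 8 by linarith)
  obtain ⟨K₁, -, h1⟩ := sep_short h (ε := c / 4) (δ := 3 * c / 8) (by linarith) (by linarith)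
    (by linarith) (N + J₀)
  obtain ⟨K₂, -, h2⟩ := P_chg h (ε := c / 4) (δ := 3 * c / 8) (δ' := c / 2) (by linarith)
    (by linarith) (by linarith) (by linarith)
  refine ⟨K₁ * K₂, fun n x hx y hy => ?_⟩
  obtain ⟨F, hF, hFc⟩ := P_att g (c / 4) (show 0 < c / 2 by linarith) n x
  obtain ⟨J, hJ, z, hz1, hz2⟩ := hN (g^[J₀] y) ((hinv _ _).mpr hy) x hx
  have hxz : dist x (g^[J] z) < δ := by
    have := hz2 0
    simp only [Function.iterate_zero, id] at this
    linarith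
  have hch : ∀ p, ∃ p', p ∈ F → SR g (c / 16) p p' ∧ SR g.symm (c / 4 + c / 16) (g^[J] z) p' := by
    intro p
    by_cases hp : p ∈ F
    · obtain ⟨p', h3⟩ := hh (c / 4) (by linarith) x (g^[J] z) p hxz (hF.1 p hp)
      exact ⟨p', fun _ => h3⟩
    · exact ⟨p, fun h => absurd h hp⟩
  choose φ hφ using hch
  have hsep : ∀ p ∈ F, ∀ p' ∈ F, p ≠ p' → ∃ k ≤ n, 3 * c / 8 < dist (g^[k] (φ p)) (g^[k] (φ p')) := by
    intro p hp p' hp' hne
    obtain ⟨k, hk, h3⟩ := hF.2 p hp p' hp' hne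
    refine ⟨k, hk, ?_⟩
    have h4 := (hφ p hp).1 k
    have h5 := (hφ p' hp').1 k
    have := dist_triangle4_right (g^[k] p) (g^[k] p') (g^[k] (φ p)) (g^[k] (φ p'))
    linarith
  have hinj : Set.InjOn φ F := by
    intro p hp p' hp' he
    by_contra hne
    obtain ⟨k, -, hk⟩ := hsep p hp p' hp' hne
    rw [he, dist_self] at hk
    linarith
  have hs1 : Sep g (3 * c / 8) n (F.image φ) := by
    intro a ha b hb hab
    obtain ⟨p, hp, rfl⟩ := Finset.mem_image.mp ha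
    obtain ⟨p', hp', rfl⟩ := Finset.mem_image.mp hb
    exact hsep p hp p' hp' fun e => hab (by rw [e])
  have hs2 := sep_back hs1 (J + J₀)
  have hs3 : Sep g (3 * c / 8) (n + (N + J₀)) ((F.image φ).image (g.symm^[J + J₀])) :=
    hs2.mono le_rfl (by omega)
  have hu : ∀ q ∈ (F.image φ).image (g.symm^[J + J₀]), SR g.symm (c / 4) y q := by
    intro q hq
    obtain ⟨q', hq', rfl⟩ := Finset.mem_image.mp hq
    obtain ⟨p, hp, rfl⟩ := Finset.mem_image.mp hq'
    intro i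
    have h3 := h.cU _ _ hz1 (i + J₀)
    have h4 := h.cU _ _ ((hφ p hp).2.mono (show c / 4 + c / 16 ≤ c by linarith)) (i + (J + J₀))
    rw [bk' g (show J₀ ≤ i + J₀ by omega), Nat.add_sub_cancel] at h3
    have e : i + (J + J₀) - J = i + J₀ := by omega
    rw [bk' g (show J ≤ i + (J + J₀) by omega), e,
      Function.iterate_add_apply g.symm i (J + J₀) (φ p)] at h4
    have h5 := (pw_anti hc (show J₀ ≤ i + J₀ by omega)).trans hJ₀
    have h6 := (pw_anti hc (show J₀ ≤ i + (J + J₀) by omega)).trans hJ₀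
    have := dist_triangle (g.symm^[i] y) (g.symm^[i + J₀] z) (g.symm^[i] (g.symm^[J + J₀] (φ p)))
    linarith
  obtain ⟨F₁, h3, h4, h5⟩ := h1 n y _ hu hs3
  rw [Finset.card_image_of_injective _ (g.symm.injective.iterate _),
    Finset.card_image_of_injOn hinj] at h5
  calc P g (c / 4) (c / 2) n x = F.card := hFc.symm
    _ ≤ K₁ * F₁.card := h5
    _ ≤ K₁ * P g (c / 4) (3 * c / 8) n y :=
      Nat.mul_le_mul_left _ (P_le (by linarith) ⟨fun q hq => hu q (h3 hq), h4⟩)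
    _ ≤ K₁ * (K₂ * P g (c / 4) (c / 2) n y) := Nat.mul_le_mul_left _ (h2 n y)
    _ = _ := by ring

end Pool.Agent.Y330.H
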