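import Pool.Agent.Y330.H.B6

set_option autoImplicit false
set_option linter.unusedSectionVars false

open Filter Topology Set Metric unitInterval

namespace Pool.Agent.Y330.H

open Pool.Agent.H789R2.AN Pool.Agent.H789R2.GP Pool.Agent.TH304.K289
open Pool.Agent.Y330.G

variable {X : Type*} [MetricSpace X] [CompactSpace X] {g : X ≃ₜ X} {c : ℝ}

theorem P_mono_eps {ε ε' δ : ℝ} (hδ : 0 < δ) (hε : ε ≤ ε') (n : ℕ) (x : X) :
    P g ε δ n x ≤ P g ε' δ n x := by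
  obtain ⟨F, hF, h1⟩ := P_att g ε hδ n x
  rw [← h1]
  exact P_le hδ ⟨fun y hy => (hF.1 y hy).mono hε, hF.2⟩

theorem path_push (n : ℕ) (v : C(I, SM g.symm)) : ∃ w : C(I, SM g.symm),
    ∀ t, (w t).val = g^[n] (v t).val := by
  have hc : ∀ x, g (g.symm x) = g.symm (g x) := fun x => by
    rw [g.symm_apply_apply, g.apply_symm_apply]
  exact ⟨⟨_, (SM.continuous_mapIter (g := g.symm) (φ := g) hc n).comp v.continuous⟩, fun t => rfl⟩

/-- Holonomies starting at a point of a minimal repeller are uniformly bounded. -/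
theorem bounded [ConnectedSpace X] [Nontrivial X] (hg : LP g c) (hX : ULC X) {c₁ : ℝ}
    (hc₁ : 0 < c₁) (hc₁c : c₁ ≤ c) (hs : Sl g c c₁) (hs' : Sl g.symm c c₁) {ρ : ℝ} (hρ0 : 0 < ρ)
    (hρ : ρ ≤ c₁) (hρc : ρ ≤ c / 4) {a : ℕ} (hQ : QH g ρ a) (hI : IH g) {R : Set X}
    (hR : MinAtt g.symm R) : ∃ K : ℕ, ∀ R₀ : I → I → X, Rc g R₀ → R₀ 0 0 ∈ R →
      Lv g ρ 0 (R₀ 0 0) (R₀ 0 1) → Lv g ρ K (R₀ 1 0) (R₀ 1 1) := by
  classical
  have hc := hg.c_pos
  have hinv : ∀ (J : ℕ) (z : X), g^[J] z ∈ R ↔ z ∈ R := fun J z =>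
    inv_iter (fun x => by rw [← hR.1.inv (g x), g.symm_apply_apply]) J z
  have hinv' : ∀ (J : ℕ) (z : X), g.symm^[J] z ∈ R ↔ z ∈ R := fun J z => inv_iter hR.1.inv J z
  obtain ⟨C, hC⟩ := growth_rep hg hR
  obtain ⟨θ, hθ, hsepl⟩ := sep_lemma hg hX hc₁ hs hI
  obtain ⟨b₂, hb₂⟩ := pw (c := c) hθ
  obtain ⟨K₁, -, hK₁⟩ := P_shift hg (ε := ρ) (δ := c / 2) (by linarith) (by linarith)
    (by linarith) (a + b₂)
  obtain ⟨j₀, hj₀⟩ := rep_many hg hX hR (C * (K₁ * C) + 1)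
  obtain ⟨η₁, hη₁, hpath⟩ := leaf_path hg.symm hX ρ hρ0
  obtain ⟨b, hb⟩ := pw (c := c) hη₁
  obtain ⟨K, hK⟩ := lifts hg hc₁ hs hs' hρ0 hρ hQ (b + j₀)
  refine ⟨K, fun R₀ hR₀ hx₀ hl₀ => ?_⟩
  by_contra hcon
  obtain ⟨m, hm⟩ := hK R₀ hR₀ hl₀ hcon
  set x₀ := R₀ 0 0 with hx₀d
  set z := R₀ 1 0 with hzd
  set n := m + b₂ with hn
  have hz : z ∈ R := hR.1.sat x₀ hx₀ z (hR₀.cs.toWS (1, 0))
  obtain ⟨F', hF', hF's, hF'c⟩ := hj₀ (g.symm^[j₀] z) ((hinv' _ _).mpr hz)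
  have hG : ∀ p : X, ∃ G : Finset X, Val g (c / 4) (c / 2) n (g^[j₀] p) G ∧
      G.card = P g (c / 4) (c / 2) n (g^[j₀] p) := fun p =>
    P_att g (c / 4) (show 0 < c / 2 by linarith) n _
  choose G hG hGc using hG
  set Ft : Finset X := F'.biUnion G with hFt
  -- the rectangles
  have hT : ∀ q, ∃ T : I → I → X, q ∈ Ft → Rc g T ∧ (∀ s, T s 0 = R₀ (σ s) 0) ∧ T 0 1 = q ∧
      Lv g ρ a x₀ (T 1 1) ∧ ∀ s, SR g θ (g^[n] (T 0 1)) (g^[n] (T s 1)) := by
    intro q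
    by_cases hq : q ∈ Ft
    · rw [hFt, Finset.mem_biUnion] at hq
      obtain ⟨p, hp, hqp⟩ := hq
      have e1 : SR g.symm (c / 4) (g^[j₀] p) q := (hG p).1 q hqp
      have e2 : SR g.symm (c / 4) p (g.symm^[j₀] q) := by
        have := e1.shift j₀
        rwa [iterL] at this
      have e3 : SR g.symm c (g.symm^[j₀] z) (g.symm^[j₀] q) :=
        (sr_tr (hF' p hp).2 e2).mono (by linarith)
      have e4 := sr_back hg hb e3
      obtain ⟨w', h1, h2, h3⟩ := hpath ⟨g.symm^[b] (g.symm^[j₀] z)⟩ ⟨g.symm^[b] (g.symm^[j₀] q)⟩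
        ((SM.dist_le _ _ hη₁.le).2 e4)
      obtain ⟨w, hw⟩ := path_push (b + j₀) w'
      have hr : ∀ y : X, g^[b + j₀] (g.symm^[b] (g.symm^[j₀] y)) = y := fun y => by
        rw [← Function.iterate_add_apply g.symm b j₀, iterR]
      obtain ⟨T, hT1, hT2, hT3, hT4, hT5⟩ := hm w (by rw [hw, h1, hr]) (fun t => by
        unfold Lv
        rw [hw, iterL, Function.iterate_add_apply]
        exact (SM.dist_le _ _ hρ0.le).1 (h3 t))
      refine ⟨T, fun _ => ⟨hT1, hT2, by rw [hT3, hw, h2, hr], hT4 1, fun s k => ?_⟩⟩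
      have h5 := hg.cS _ _ ((hT5 m le_rfl s 1).mono hc₁c) (k + b₂)
      rw [← Function.iterate_add_apply, ← Function.iterate_add_apply] at h5 ⊢
      rw [hn, show k + (m + b₂) = k + b₂ + m by omega]
      exact h5.trans ((pw_anti hc (by omega)).trans hb₂)
    · exact ⟨R₀, fun h => absurd h hq⟩
  choose T hT using hT
  set ψ : X → X := fun q => g.symm^[a] (T q 1 1) with hψ
  -- transport of closeness
  have hclose : ∀ q ∈ Ft, ∀ q' ∈ Ft,
      (∀ k ≤ n + (a + b₂), dist (g^[k] (ψ q)) (g^[k] (ψ q')) ≤ c / 2) →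
      SR g.symm (c / 3) (g^[n] q) (g^[n] q') := by
    intro q hq q' hq' hd
    obtain ⟨t1, t2, t3, t4, t5⟩ := hT q hq
    obtain ⟨u1, u2, u3, u4, u5⟩ := hT q' hq'
    have f1 : SR g.symm c (ψ q) (ψ q') := by
      have a1 : SR g.symm ρ (g.symm^[a] x₀) (ψ q) := t4
      have a2 : SR g.symm ρ (g.symm^[a] x₀) (ψ q') := u4
      exact (sr_tr a1.symm' a2).mono (by linarith)
    have f2 := sr_of g (m := n + (a + b₂)) (fun k hk => (hd k hk).trans (by linarith)) f1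
    have f3 : ∀ y : X, g^[n + (a + b₂)] (g.symm^[a] y) = g^[n + b₂] y := fun y => by
      rw [fw' g (show a ≤ n + (a + b₂) by omega)]
      congr 1
      omega
    have f4 : SR g.symm c (g^[n + b₂] (T q 1 1)) (g^[n + b₂] (T q' 1 1)) := by
      rw [← f3, ← f3]
      exact f2
    have f5 := sr_back hg hb₂ f4
    rw [bk g (by omega), bk g (by omega), Nat.add_sub_cancel] at f5
    have f6 := hsepl (T q) (T q') n t1 u1 (fun s => by rw [t2, u2]) t5 f5
    rwa [t3, u3] at f6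
  have hpp : ∀ p ∈ F', ∀ p' ∈ F', p ≠ p' → ∀ q ∈ G p, ∀ q' ∈ G p', ∃ i : ℕ,
      3 * c / 8 < dist (g.symm^[i] q) (g.symm^[i] q') := by
    intro p hp p' hp' hne q hq q' hq'
    obtain ⟨k, hk, h1⟩ := hF's p hp p' hp' hne
    refine ⟨j₀ - k, ?_⟩
    have e1 := (hG p).1 q hq (j₀ - k)
    have e2 := (hG p').1 q' hq' (j₀ - k)
    rw [bk g (by omega), show j₀ - (j₀ - k) = k by omega] at e1 e2
    have := dist_triangle4_right (g^[k] p) (g^[k] p') (g.symm^[j₀ - k] q) (g.symm^[j₀ - k] q')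
    linarith
  have hsep : ∀ q ∈ Ft, ∀ q' ∈ Ft, q ≠ q' → ∃ k ≤ n + (a + b₂),
      c / 2 < dist (g^[k] (ψ q)) (g^[k] (ψ q')) := by
    intro q hq q' hq' hne
    by_contra hcon2
    push Not at hcon2
    have h1 := hclose q hq q' hq' hcon2
    rw [hFt, Finset.mem_biUnion] at hq hq'
    obtain ⟨p, hp, hqp⟩ := hq
    obtain ⟨p', hp', hqp'⟩ := hq'
    by_cases hpe : p = p'
    · subst hpe
      obtain ⟨k, hk, h2⟩ := (hG p).2 q hqp q' hqp' hne
      have h3 := h1 (n - k)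
      rw [bk g (by omega), bk g (by omega), show n - (n - k) = k by omega] at h3
      linarith
    · obtain ⟨i, hi⟩ := hpp p hp p' hp' hpe q hqp q' hqp'
      have h3 := h1 (n + i)
      rw [bk' g (by omega), bk' g (by omega), show n + i - n = i by omega] at h3
      linarith
  have hinj : Set.InjOn ψ Ft := by
    intro p hp p' hp' he
    by_contra hne
    obtain ⟨k, -, hk⟩ := hsep p hp p' hp' hne
    rw [he, dist_self] at hk
    linarith
  have hval : Val g ρ (c / 2) (n + (a + b₂)) (g.symm^[a] x₀) (Ft.image ψ) := by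
    constructor
    · intro y hy
      obtain ⟨q, hq, rfl⟩ := Finset.mem_image.mp hy
      exact (hT q hq).2.2.2.1
    · intro y hy y' hy' hne
      obtain ⟨q, hq, rfl⟩ := Finset.mem_image.mp hy
      obtain ⟨q', hq', rfl⟩ := Finset.mem_image.mp hy'
      exact hsep q hq q' hq' fun e => hne (by rw [e])
  have hcard : Ft.card = ∑ p ∈ F', P g (c / 4) (c / 2) n (g^[j₀] p) := by
    rw [hFt, Finset.card_biUnion]
    · exact Finset.sum_congr rfl fun p _ => hGc p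
    · intro p hp p' hp' hne
      show Disjoint (G p) (G p')
      rw [Finset.disjoint_left]
      intro q hq hq'
      obtain ⟨i, hi⟩ := hpp p hp p' hp' hne q hq q hq'
      rw [dist_self] at hi
      linarith
  have hx₀' : g.symm^[a] x₀ ∈ R := (hinv' _ _).mpr hx₀
  set ν := P g (c / 4) (c / 2) n x₀ with hν
  have hν1 : 1 ≤ ν := one_le_P g (by linarith) (by linarith) n x₀
  have k1 : (C * (K₁ * C) + 1) * ν ≤ C * Ft.card := by
    rw [hcard, Finset.mul_sum, ← hF'c, ← smul_eq_mul, ← Finset.sum_const]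
    exact Finset.sum_le_sum fun p hp => hC n x₀ hx₀ _ ((hinv _ _).mpr (hF' p hp).1)
  have k2 : Ft.card ≤ K₁ * (C * ν) := by
    rw [← Finset.card_image_of_injOn hinj]
    calc (Ft.image ψ).card ≤ P g ρ (c / 2) (n + (a + b₂)) (g.symm^[a] x₀) :=
          P_le (by linarith) hval
      _ ≤ K₁ * P g ρ (c / 2) n (g.symm^[a] x₀) := hK₁ _ _
      _ ≤ K₁ * P g (c / 4) (c / 2) n (g.symm^[a] x₀) :=
          Nat.mul_le_mul_left _ (P_mono_eps (by linarith) hρc _ _)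
      _ ≤ K₁ * (C * ν) := Nat.mul_le_mul_left _ (hC n _ hx₀' _ hx₀)
  have k3 : (C * (K₁ * C) + 1) * ν ≤ C * (K₁ * C) * ν :=
    k1.trans ((Nat.mul_le_mul_left C k2).trans (le_of_eq (by ring)))
  have k4 : C * (K₁ * C) * ν < (C * (K₁ * C) + 1) * ν := by
    rw [add_mul, one_mul]
    omega
  omega

end Pool.Agent.Y330.H
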