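import Pool.Agent.Y330.H.B7
import Pool.Agent.Y330.G.A7

set_option autoImplicit false
set_option linter.unusedSectionVars false

open Filter Topology Set Metric unitInterval

namespace Pool.Agent.Y330.H

open Pool.Agent.H789R2.AN Pool.Agent.H789R2.GP Pool.Agent.TH304.K289 Pool.Agent.TH289.L
open Pool.Agent.Y330.G

variable {X : Type*} [MetricSpace X] [CompactSpace X] {g : X ≃ₜ X} {c : ℝ}

theorem interval_induct {S : I → Prop} {δ : ℝ} (hδ : 0 < δ) (h0 : S 0)
    (hstep : ∀ t, (∀ t' ≤ t, S t') → ∀ t'', dist t t'' < δ → S t'') : ∀ t, S t := by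
  have hall : ∀ n : ℕ, ∀ t : I, (t : ℝ) ≤ n * (δ / 2) → S t := by
    intro n
    induction n with
    | zero =>
      intro t ht
      have ht0 : t = 0 := by
        apply Subtype.ext
        have := t.2.1
        push_cast at ht
        rw [zero_mul] at ht
        exact le_antisymm ht this
      rw [ht0]
      exact h0
    | succ n ih =>
      intro t ht
      push_cast at ht
      set t₁ : I := Set.projIcc 0 1 zero_le_one ((t : ℝ) - δ / 2) with ht₁
      have hnn : (0 : ℝ) ≤ n * (δ / 2) := by positivity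
      have e1 : (t₁ : ℝ) = max 0 (min 1 ((t : ℝ) - δ / 2)) := by
        rw [ht₁, Set.coe_projIcc]
      have ht2 := t.2.1
      have ht3 := t.2.2
      have e2 : (t₁ : ℝ) = max 0 ((t : ℝ) - δ / 2) := by
        rw [e1, min_eq_right (by linarith)]
      refine hstep t₁ (fun t' ht' => ih t' ?_) t ?_
      · have : (t' : ℝ) ≤ t₁ := ht'
        rw [e2] at this
        refine this.trans (max_le hnn (by linarith))
      · rw [Subtype.dist_eq, Real.dist_eq, e2]
        rcases max_cases (0:ℝ) ((t : ℝ) - δ / 2) with h | h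
        · rw [h.1, zero_sub, abs_neg, abs_of_nonneg ht2]
          linarith
        · rw [h.1]
          have : (t : ℝ) - δ / 2 - t = -(δ / 2) := by ring
          rw [this, abs_neg, abs_of_pos (by linarith)]
          linarith
  intro t
  obtain ⟨n, hn⟩ := exists_nat_gt (1 / (δ / 2))
  refine hall n t (t.2.2.trans ?_)
  rw [div_lt_iff₀ (half_pos hδ)] at hn
  exact hn.le

/-- rectangles with bounded unstable sides extend along all stable paths -/
theorem extend (hg : LP g c) {c₁ : ℝ} (hc₁ : 0 < c₁) (hs : Sl g c c₁) {K : ℕ}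
    (v : C(I, SM g.symm)) (hv : ∀ T : I → I → X, Rc g T → (∀ t, T 0 t = (v t).val) →
      ∀ t, SR g.symm c₁ (g.symm^[K] (T 1 0)) (g.symm^[K] (T 1 t)))
    (τ : C(I, SM g)) (h0 : (τ 0).val = (v 0).val) :
    ∃ T : I → I → X, Rc g T ∧ (∀ s, T s 0 = (τ s).val) ∧ ∀ t, T 0 t = (v t).val := by
  obtain ⟨η, hη, hsl⟩ := hs 1 one_pos K
  have hu : UniformContinuous τ := CompactSpace.uniformContinuous_of_continuous τ.continuous
  rw [Metric.uniformContinuous_iff] at hu
  obtain ⟨δ, hδ, hτδ⟩ := hu η hη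
  have hall : ∀ r : I, ∃ Γ : C(I, Pr g), (Γ 0).y = (τ r).val ∧ ∀ t, (Γ t).x = (v t).val := by
    refine interval_induct (S := fun r => ∃ Γ : C(I, Pr g), (Γ 0).y = (τ r).val ∧
      ∀ t, (Γ t).x = (v t).val) hδ ?_ ?_
    · obtain ⟨Γ, a1, a2⟩ := strip_const (g := g) v
      exact ⟨Γ, by rw [a2, h0], a1⟩
    · intro r hr r' hrr
      let τ' : C(I, SM g) := ⟨fun s => τ (r * s), by fun_prop⟩
      obtain ⟨T, a1, a2, a3⟩ := rc_of_strips hg hc₁ hs τ' v
        (by
          show (τ (r * 0)).val = _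
          rw [mul_zero, h0])
        (fun s => hr (r * s) unitInterval.mul_le_left)
      obtain ⟨v₃, hv₃⟩ := a1.pathU 1
      have e1 : T 1 0 = (τ r).val := by
        rw [a2]
        show (τ (r * 1)).val = _
        rw [mul_one]
      obtain ⟨Γ₃, c1, c2, -, -⟩ := hsl v₃ (τ r').val
        (by
          rw [hv₃, e1]
          exact (SM.dist_le _ _ hη.le).mp (hτδ hrr).le)
        (fun t => by
          rw [hv₃, hv₃]
          exact hv T a1 a3 t)
      obtain ⟨Γ₄, d1, d2⟩ := a1.strip 0 1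
      obtain ⟨Γ₅, f1, f2⟩ := strip_comp Γ₄ Γ₃ (fun s => by rw [c2, d2, hv₃])
      exact ⟨Γ₅, by rw [f2, c1], fun s => by rw [f1, d1, a3]⟩
  exact rc_of_strips hg hc₁ hs τ v h0 hall

/-- no proper repeller -/
theorem no_repeller [ConnectedSpace X] [Nontrivial X] (hg : LP g c) (hX : ULC X) {c₁ : ℝ}
    (hc₁ : 0 < c₁) (hc₁c : c₁ ≤ c) (hs : Sl g c c₁) (hs' : Sl g.symm c c₁) {ρ : ℝ} (hρ0 : 0 < ρ)
    (hρ : 2 * ρ ≤ c₁) (hρc : ρ ≤ c / 4) {a : ℕ} (hQ : QH g ρ a) (hI : IH g) {R : Set X}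
    (hR : MinAtt g.symm R) : R = univ := by
  by_contra hne
  obtain ⟨K, hK⟩ := bounded hg hX hc₁ hc₁c hs hs' hρ0 (by linarith) hρc hQ hI hR
  obtain ⟨η₁, hη₁, hpath⟩ := leaf_path hg.symm hX ρ hρ0
  obtain ⟨x, hx⟩ := hR.1.nonempty
  obtain ⟨w, hw1, hw2⟩ := exit hg hR hne hη₁ hx
  obtain ⟨w', hw', hww⟩ := exists_repeller hg.symm hR.1 hw2
  have hww' : WS g w w' := hww
  obtain ⟨v, hv0, hv1, hv⟩ := hpath ⟨x⟩ ⟨w⟩ ((SM.dist_le _ _ hη₁.le).2 hw1)
  have hvl : ∀ t, Lv g ρ 0 x (v t).val := fun t => (SM.dist_le _ _ hρ0.le).1 (hv t)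
  let v' : C(I, SM g.symm) := ⟨fun t => v (σ t), by fun_prop⟩
  obtain ⟨τ, hτ0, hτ1⟩ := leaf_conn hg hX w w' hww'
  obtain ⟨T, h1, h2, h3⟩ := extend hg hc₁ hs (K := K) v' (fun T hT h0 t => by
    have key : ∀ t, Lv g ρ K (T 1 1) (T 1 t) := by
      intro t
      have hT' : Rc g (fun s' t' => T s' (σ (σ t * t'))) :=
        hT.reparam (a := fun s => s) (b := fun t' => σ (σ t * t')) continuous_id (by fun_prop)
      have e0 : T 0 (σ (σ t * 0)) = x := by
        rw [h0, mul_zero, unitInterval.symm_zero]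
        show (v (σ 1)).val = x
        rw [unitInterval.symm_one, hv0]
      have := hK _ hT' (by
          show T 0 (σ (σ t * 0)) ∈ R
          rw [e0]
          exact hx)
        (by
          show Lv g ρ 0 (T 0 (σ (σ t * 0))) (T 0 (σ (σ t * 1)))
          rw [e0, h0]
          exact hvl _)
      have e : Lv g ρ K (T 1 (σ (σ t * 0))) (T 1 (σ (σ t * 1))) := this
      rwa [mul_zero, mul_one, unitInterval.symm_zero, unitInterval.symm_symm] at e
    have k1 := key 0
    have k2 := key t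
    exact (sr_tr k1.symm' k2).mono (by linarith)) τ
    (by
      rw [hτ0]
      show w = (v (σ 0)).val
      rw [unitInterval.symm_zero, hv1])
  -- the corner
  have hb : T 1 1 ∈ R := by
    have e : WS g (T 0 1) (T 1 1) := h1.cs.toWS (1, 1)
    have e2 : T 0 1 = x := by
      rw [h3]
      show (v (σ 1)).val = x
      rw [unitInterval.symm_one, hv0]
    rw [e2] at e
    exact hR.1.sat x hx _ e
  have hc : WS g.symm (T 1 0) (T 1 1) := h1.cu.toWS (1, 1)
  rw [h2, hτ1] at hc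
  exact hw' ⟨T 1 1, hb, hc⟩

/-- all unstable paths lift along all stable displacements -/
theorem lf_all [ConnectedSpace X] [Nontrivial X] (hg : LP g c) (hX : ULC X) {c₁ : ℝ}
    (hc₁ : 0 < c₁) (hc₁c : c₁ ≤ c) (hs : Sl g c c₁) (hs' : Sl g.symm c c₁) {ρ : ℝ} (hρ0 : 0 < ρ)
    (hρ : 2 * ρ ≤ c₁) (hρc : ρ ≤ c / 4) {a : ℕ} (hQ : QH g ρ a) (hI : IH g) :
    ∀ a s, WS g a s → Lf g a s := by
  have huniv : IsAtt g.symm (univ : Set X) :=
    ⟨isClosed_univ, univ_nonempty, fun _ => by simp, fun _ _ _ _ => mem_univ _⟩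
  obtain ⟨R, -, hR⟩ := exists_minAtt huniv
  have hRu : R = univ := no_repeller hg hX hc₁ hc₁c hs hs' hρ0 hρ hρc hQ hI hR
  rw [hRu] at hR
  obtain ⟨K, hK⟩ := bounded hg hX hc₁ hc₁c hs hs' hρ0 (by linarith) hρc hQ hI hR
  intro a s has υ hυ
  obtain ⟨j, hj⟩ := path_level hg.symm υ hρ0
  obtain ⟨v, hv⟩ := path_iter j υ
  have hws : WS g (g.symm^[j] a) (g.symm^[j] s) := by
    rw [← WS.iter j, iterR, iterR]
    exact has
  obtain ⟨τ, hτ0, hτ1⟩ := leaf_conn hg hX _ _ hws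
  obtain ⟨T, h1, h2, h3⟩ := extend hg hc₁ hs (K := K) v (fun T hT h0 t => by
    have hT' : Rc g (fun s' t' => T s' (t * t')) :=
      hT.reparam (a := fun s => s) (b := fun t' => t * t') continuous_id (by fun_prop)
    have := hK _ hT' (mem_univ _)
      (by
        show Lv g ρ 0 (T 0 (t * 0)) (T 0 (t * 1))
        rw [mul_zero, mul_one, h0, h0, hv, hv]
        exact hj t)
    have e : Lv g ρ K (T 1 (t * 0)) (T 1 (t * 1)) := this
    rw [mul_zero, mul_one] at e
    exact SR.mono e (by linarith)) τ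
    (by rw [hτ0, hv, hυ])
  obtain ⟨Γ, c1, c2⟩ := h1.strip 0 1
  obtain ⟨Γ', d1, d2⟩ := strip_iter j Γ
  refine ⟨(Γ' 1).y, Γ', ?_, rfl, fun t => ?_⟩
  · rw [d2, c2, h2, hτ1, iterR]
  · rw [d1, c1, h3, hv, iterR]

end Pool.Agent.Y330.H
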