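import Pool.Agent.Y330.H.B8

set_option autoImplicit false
set_option linter.unusedSectionVars false

open Filter Topology Set Metric unitInterval

namespace Pool.Agent.Y330.H

open Pool.Agent.H789R2.AN Pool.Agent.H789R2.GP Pool.Agent.TH304.K289 Pool.Agent.TH289.L
open Pool.Agent.Y330.G

variable {X : Type*} [MetricSpace X] [CompactSpace X] {g : X ≃ₜ X} {c : ℝ}

/-- the continuations of the stable holonomies are always injective -/
theorem ih_all (hg : LP g c) : IH g := by
  intro R hR h11
  have hc := hg.c_pos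
  obtain ⟨j, hj⟩ := hR.cu c hc
  have hR' := hR.iter' j
  have k0 : Con g (fun _ : I => g.symm^[j] (R 0 0)) (fun s => g.symm^[j] (R s 0)) :=
    Con.reidx hR'.cs (fun s : I => (s, (0 : I)))
  have k1 : Con g (fun _ : I => g.symm^[j] (R 0 1)) (fun s => g.symm^[j] (R s 1)) :=
    Con.reidx hR'.cs (fun s : I => (s, (1 : I)))
  have c0 : Continuous fun s : I => g.symm^[j] (R s 0) :=
    hR'.cont.comp (by fun_prop : Continuous fun s : I => (s, (0 : I)))
  have c1 : Continuous fun s : I => g.symm^[j] (R s 1) :=
    hR'.cont.comp (by fun_prop : Continuous fun s : I => (s, (1 : I)))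
  have hR0 : Continuous fun s : I => R s 0 :=
    hR.cont.comp (by fun_prop : Continuous fun s : I => (s, (0 : I)))
  have hR1 : Continuous fun s : I => R s 1 :=
    hR.cont.comp (by fun_prop : Continuous fun s : I => (s, (1 : I)))
  have hcl : IsClopen {s : I | R s 1 = R s 0} := by
    refine ⟨isClosed_eq hR1 hR0, ?_⟩
    rw [isOpen_iff_mem_nhds]
    intro s₀ hs₀
    have e0 : R s₀ 1 = R s₀ 0 := hs₀
    filter_upwards [k0.cont c0 s₀ (half_pos hc), k1.cont c1 s₀ (half_pos hc)] with s a0 a1
    show R s 1 = R s 0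
    rw [e0] at a1
    have h1 : SR g c (g.symm^[j] (R s 0)) (g.symm^[j] (R s 1)) :=
      (sr_tr a0.symm' a1).mono (by linarith)
    have h2 : SR g.symm c (g.symm^[j] (R s 0)) (g.symm^[j] (R s 1)) := by
      intro k
      rw [← Function.iterate_add_apply, ← Function.iterate_add_apply]
      exact hj (k + j) (by omega) (s, 1)
    exact (g.symm.injective.iterate j (expans hg h1 h2)).symm
  have := hcl.eq_univ ⟨1, h11⟩
  exact (this.ge (mem_univ (0 : I)) : R 0 1 = R 0 0)

end Pool.Agent.Y330.H
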