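import Mathlib

set_option autoImplicit false

open Filter Topology Set unitInterval

namespace Pool.Agent.Y330.H

/-- `R` is a rectangle of the invariant foliations of `f`: its horizontal sides `s ↦ R (s, t)` lie in
stable leaves (they are contracted uniformly by the iterates of `f`) and its vertical sides
`t ↦ R (s, t)` lie in unstable leaves (they are contracted uniformly by the iterates of `f⁻¹`).
The map `R (0, t) ↦ R (1, t)` is the stable holonomy along the stable path `s ↦ R (s, 0)` of
arbitrary length. -/
def Rectangle {M : Type*} [TopologicalSpace M] (f : M ≃ₜ M) (R : C(I × I, M)) : Prop :=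
  ∀ 𝒰 ∈ 𝓝ˢ (diagonal M), ∀ᶠ n : ℕ in atTop, ∀ s t : I,
    (f^[n] (R (0, t)), f^[n] (R (s, t))) ∈ 𝒰 ∧ (f.symm^[n] (R (s, 0)), f.symm^[n] (R (s, t))) ∈ 𝒰

/-- The points `x`, `y` have unstable level at most `i`, at the scale `𝒰`: the points `f⁻ⁿ x` and
`f⁻ⁿ y` are `𝒰`-close for all `n ≥ i`.  (The level is a dynamical version of the logarithm of the
distance of `x` and `y` in their unstable leaf.) -/
def Level {M : Type*} [TopologicalSpace M] (f : M ≃ₜ M) (𝒰 : Set (M × M)) (i : ℕ) (x y : M) :
    Prop :=
  ∀ n ≥ i, (f.symm^[n] x, f.symm^[n] y) ∈ 𝒰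

/-- The stable holonomies of `f` are uniformly weakly quasisymmetric: for every `i` there is `k` such
that, if the stable holonomy along a stable path from `x` to `x'` (of any length) takes `y` to `y'`
and `z` to `z'`, where the level of `x`, `y` is at most `0` and the level of `x`, `z` is greater than
`0`, and if the level of `x'`, `z'` is at most `i`, then the level of `x'`, `y'` is at most `k`.
(As `f` preserves its holonomies, this is a condition at all scales; quasisymmetry of the
holonomies with a uniform constant would give `k = i + const`.) -/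
def QuasisymmetricHolonomy {M : Type*} [TopologicalSpace M] (f : M ≃ₜ M) (𝒰 : Set (M × M)) :
    Prop :=
  ∀ i : ℕ, ∃ k : ℕ, ∀ R R' : C(I × I, M), Rectangle f R → Rectangle f R' →
    (∀ s, R (s, 0) = R' (s, 0)) → Level f 𝒰 0 (R (0, 0)) (R (0, 1)) →
    ¬ Level f 𝒰 0 (R' (0, 0)) (R' (0, 1)) → Level f 𝒰 i (R' (1, 0)) (R' (1, 1)) →
    Level f 𝒰 k (R (1, 0)) (R (1, 1))

end Pool.Agent.Y330.H
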