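import Pool.Agent.Y330.H.B9
import Pool.Agent.Y330.H.Def
import Pool.Agent.TH289.L.P3

set_option autoImplicit false
set_option linter.unusedSectionVars false

open Filter Topology Set Metric unitInterval
open scoped Manifold ContDiff

namespace Pool.Agent.Y330.H

open Pool.Agent.H721R2 Pool.Agent.H789R2.AN Pool.Agent.H789R2.GP Pool.Agent.TH304.K289
open Pool.Agent.TH289.L Pool.Agent.TH289 Pool.Agent.TH289.K
open Pool.Agent.Y330.G
open Pool.Agent.W740.TU (anosov_symm transitive_symm)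

section abs

variable {X : Type*} [MetricSpace X] [CompactSpace X]

theorem rectangle_of_rc {f : X ≃ₜ X} {N : ℕ} (hN : 1 ≤ N) {R : I → I → X}
    (h : Rc (iterHomeo f N) R) : Rectangle f ⟨fun p : I × I => R p.1 p.2, h.cont⟩ := by
  have h1 : Con f (fun p : I × I => R 0 p.2) (fun p => R p.1 p.2) := Con.of_iter hN h.cs
  have h2 : Con f.symm (fun p : I × I => R p.1 0) (fun p => R p.1 p.2) :=
    Con.of_iter hN (by rw [← it_symm]; exact h.cu)
  intro 𝒰 h𝒰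
  obtain ⟨ε, hε, h3⟩ := (diag_iff _).1 h𝒰
  obtain ⟨n, hn⟩ := h1 (ε / 2) (half_pos hε)
  obtain ⟨n', hn'⟩ := h2 (ε / 2) (half_pos hε)
  filter_upwards [eventually_ge_atTop n, eventually_ge_atTop n'] with m hm hm' s t
  exact ⟨h3 _ _ (lt_of_le_of_lt (hn m hm (s, t)) (half_lt_self hε)),
    h3 _ _ (lt_of_le_of_lt (hn' m hm' (s, t)) (half_lt_self hε))⟩

/-- radii whose levels are controlled by `𝒰` -/
theorem level_of_lv (f : X ≃ₜ X) (N : ℕ) {𝒰 : Set (X × X)} (h𝒰 : 𝒰 ∈ 𝓝ˢ (diagonal X)) :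
    ∃ r > 0, ∀ ρ ≤ r, ∀ (i : ℕ) (x y : X), Lv (iterHomeo f N) ρ i x y → 1 ≤ N →
      Level f 𝒰 (N * i) x y := by
  obtain ⟨ε, hε, h1⟩ := (diag_iff _).1 h𝒰
  obtain ⟨η, hη, h2⟩ := T1_unif f.symm N hε
  refine ⟨η / 2, half_pos hη, fun ρ hρ i x y h hN n hn => h1 _ _ ?_⟩
  have hnn : n = n % N + N * (n / N) := (Nat.mod_add_div n N).symm
  have hle : i ≤ n / N := (Nat.le_div_iff_mul_le (by omega)).mpr (by rwa [Nat.mul_comm])
  have h3 := h (n / N - i)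
  rw [← Function.iterate_add_apply, ← Function.iterate_add_apply, Nat.sub_add_cancel hle,
    it_symm_iter, it_symm_iter] at h3
  rw [hnn, Function.iterate_add_apply, Function.iterate_add_apply]
  exact h2 (n % N) (Nat.mod_lt _ (by omega)).le _ _ (by linarith)

theorem lv_of_level {f : X ≃ₜ X} {N : ℕ} (hN : 1 ≤ N) {c : ℝ} (hg : LP (iterHomeo f N) c)
    {𝒰 : Set (X × X)} (hc : ∀ p ∈ 𝒰, dist p.1 p.2 ≤ c) {ρ : ℝ} {a : ℕ}
    (ha : c * (1 / 2) ^ a ≤ ρ) {m : ℕ} {x y : X} (h : Level f 𝒰 m x y) :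
    Lv (iterHomeo f N) ρ (a + m) x y := by
  have h1 : SR (iterHomeo f N).symm c ((iterHomeo f N).symm^[m] x)
      ((iterHomeo f N).symm^[m] y) := by
    intro k
    rw [← Function.iterate_add_apply, ← Function.iterate_add_apply, it_symm_iter, it_symm_iter]
    have : k + m ≤ N * (k + m) := Nat.le_mul_of_pos_left _ (by omega)
    exact hc _ (h _ (by omega))
  have h2 := sr_back hg ha h1
  rw [← Function.iterate_add_apply, ← Function.iterate_add_apply] at h2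
  exact h2

theorem qh_of {f : X ≃ₜ X} {N : ℕ} (hN : 1 ≤ N) {c : ℝ} (hg : LP (iterHomeo f N) c)
    {𝒰 : Set (X × X)} (h𝒰 : 𝒰 ∈ 𝓝ˢ (diagonal X)) (hc : ∀ p ∈ 𝒰, dist p.1 p.2 ≤ c)
    (hQ : QuasisymmetricHolonomy f 𝒰) :
    ∃ r > 0, ∀ ρ > 0, ρ ≤ r → ∃ a, QH (iterHomeo f N) ρ a := by
  obtain ⟨r, hr, h1⟩ := level_of_lv f N h𝒰
  refine ⟨r, hr, fun ρ hρ hρr => ?_⟩
  obtain ⟨a, ha⟩ := pw (c := c) hρ
  refine ⟨a, fun i => ?_⟩
  obtain ⟨k, hk⟩ := hQ (N * i)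
  refine ⟨a + k, fun R R' hR hR' h0 b1 b2 b3 => ?_⟩
  refine lv_of_level hN hg hc ha (hk _ _ (rectangle_of_rc hN hR) (rectangle_of_rc hN hR')
    (fun s => h0 s) ?_ ?_ ?_)
  · have := h1 ρ hρr 0 _ _ b1 hN
    rwa [Nat.mul_zero] at this
  · intro hcon
    exact b2 (lv_of_level hN hg hc ha hcon)
  · exact h1 ρ hρr i _ _ b3 hN

theorem lf_trivial [Subsingleton X] {g : X ≃ₜ X} : ∀ a s, WS g a s → Lf g a s := by
  intro a s _ υ hυ
  obtain ⟨Γ, h1, h2⟩ := strip_const (g := g) υ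
  exact ⟨(Γ 1).y, Γ, Subsingleton.elim _ _, rfl, h1⟩

/-- the abstract theorem -/
theorem abs_qh [ConnectedSpace X] {f : X ≃ₜ X} {N : ℕ} (hN : 1 ≤ N) {c : ℝ}
    (hg : LP (iterHomeo f N) c) (hX : ULC X) {𝒰 : Set (X × X)} (h𝒰 : 𝒰 ∈ 𝓝ˢ (diagonal X))
    (hc : ∀ p ∈ 𝒰, dist p.1 p.2 ≤ c) (hQ : QuasisymmetricHolonomy f 𝒰) : GPS f := by
  have hlf : ∀ a s, WS (iterHomeo f N) a s → Lf (iterHomeo f N) a s := by
    rcases subsingleton_or_nontrivial X with hsub | hnt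
    · exact lf_trivial
    · have hc0 := hg.c_pos
      obtain ⟨c₁, hc₁, hs⟩ := exists_sl hg
      obtain ⟨c₂, hc₂, hs'⟩ := exists_sl hg.symm
      obtain ⟨r, hr, h1⟩ := qh_of hN hg h𝒰 hc hQ
      set c₃ := min c (min c₁ c₂) with hc₃
      have hc₃0 : 0 < c₃ := by positivity
      have k0 : c₃ ≤ c := min_le_left _ _
      have k1 : c₃ ≤ c₁ := (min_le_right _ _).trans (min_le_left _ _)
      have k2 : c₃ ≤ c₂ := (min_le_right _ _).trans (min_le_right _ _)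
      set ρ := min r (c₃ / 4) with hρ
      have hρ0 : 0 < ρ := by positivity
      have k3 : ρ ≤ r := min_le_left _ _
      have k4 : ρ ≤ c₃ / 4 := min_le_right _ _
      obtain ⟨a, ha⟩ := h1 ρ hρ0 k3
      exact lf_all hg hX hc₃0 k0 (hs.mono k1) (hs'.mono k2) hρ0 (by linarith) (by linarith) ha
        (ih_all hg)
  obtain ⟨c₁, hc₁, ⟨T⟩⟩ := exists_IQS hg hX hlf
  exact gps_of_iqs hN rfl hg hc₁ T

end abs

end Pool.Agent.Y330.H
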