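import Pool.Agent.Y330.H.P1

set_option autoImplicit false
set_option linter.unusedSectionVars false

open Filter Topology Set Metric
open scoped Manifold ContDiff

namespace Pool.Agent.Y330.H

open Pool.Agent.H721R2 Pool.Agent.H789R2.AN Pool.Agent.H789R2.GP Pool.Agent.TH304.K289
open Pool.Agent.TH289.L Pool.Agent.TH289 Pool.Agent.TH289.K
open Pool.Agent.Y330.G
open Pool.Agent.W740.TU (anosov_symm transitive_symm)

section manifold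

variable {E : Type*} [NormedAddCommGroup E] [NormedSpace ℝ E] [FiniteDimensional ℝ E]
  {M : Type*} [TopologicalSpace M] [T2Space M] [CompactSpace M] [ConnectedSpace M]
  [ChartedSpace E M] [IsManifold 𝓘(ℝ, E) ∞ M]

theorem man_qh (f : Diffeomorph 𝓘(ℝ, E) 𝓘(ℝ, E) M M 1)
    (Es Eu : ∀ x : M, Submodule ℝ (TangentSpace 𝓘(ℝ, E) x)) (hA : IsAnosov f Es Eu) :
    ∃ 𝒰₀ ∈ 𝓝ˢ (diagonal M), ∀ 𝒰 ∈ 𝓝ˢ (diagonal M), 𝒰 ⊆ 𝒰₀ →
      QuasisymmetricHolonomy f.toHomeomorph 𝒰 → GPS f.toHomeomorph := by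
  obtain ⟨m, ee, hee, hemb, hinje⟩ :=
    exists_embedding_euclidean_of_compact (I := 𝓘(ℝ, E)) (M := M)
  let _ : MetricSpace M := hemb.isEmbedding.comapMetricSpace ee
  have hiso : ∀ x y : M, dist x y = ‖ee x - ee y‖ := fun x y => dist_eq_norm (ee x) (ee y)
  have he1 : ContMDiff 𝓘(ℝ, E) (𝓡 m) 1 ee := hee.of_le (by simp)
  obtain ⟨N, ⟨S, hg, -, -, -⟩, hN⟩ :=
    ((exists_sys_ev hiso he1 hinje f Es Eu hA).and (eventually_ge_atTop 1)).exists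
  have : ProperSpace E := FiniteDimensional.proper_real E
  obtain ⟨c, hLP⟩ := exists_LP S
  rw [hg] at hLP
  have hX : ULC M := ulc_of_charted (X := M) (E := E)
  refine ⟨{p | dist p.1 p.2 < c}, (diag_iff _).2 ⟨c, hLP.c_pos, fun x y h => h⟩,
    fun 𝒰 h𝒰 hsub hQ => ?_⟩
  exact abs_qh hN hLP hX h𝒰 (fun p hp => (hsub hp : dist p.1 p.2 < c).le) hQ

/-- the form for both foliations -/
theorem man_qh2 (f : Diffeomorph 𝓘(ℝ, E) 𝓘(ℝ, E) M M 1)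
    (Es Eu : ∀ x : M, Submodule ℝ (TangentSpace 𝓘(ℝ, E) x)) (hA : IsAnosov f Es Eu) :
    ∃ 𝒰₀ ∈ 𝓝ˢ (diagonal M), ∀ 𝒰 ∈ 𝓝ˢ (diagonal M), 𝒰 ⊆ 𝒰₀ →
      (QuasisymmetricHolonomy f.toHomeomorph 𝒰 ∨ QuasisymmetricHolonomy f.toHomeomorph.symm 𝒰) →
      TopTransitive f ∧ GPS f.toHomeomorph ∧ ∃ π : E → M, IsCoveringMap π ∧
        Function.Surjective π := by
  obtain ⟨𝒰₁, h1, h2⟩ := man_qh f Es Eu hA
  obtain ⟨𝒰₂, h3, h4⟩ := man_qh f.symm Eu Es (anosov_symm f Es Eu hA)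
  refine ⟨𝒰₁ ∩ 𝒰₂, inter_mem h1 h3, fun 𝒰 h𝒰 hsub hQ => ?_⟩
  have hG : GPS f.toHomeomorph := by
    rcases hQ with hQ | hQ
    · exact h2 𝒰 h𝒰 (hsub.trans inter_subset_left) hQ
    · exact (h4 𝒰 h𝒰 (hsub.trans inter_subset_right) hQ).symm
  obtain ⟨k1, k2⟩ := man_self f Es Eu hA hG
  exact ⟨k1, hG, k2⟩

end manifold

end Pool.Agent.Y330.H
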